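import Pool.Agent.Helper37.TL.Mom

set_option autoImplicit false

/-!
# The large range of the twist law

Union over all `t` and over a logarithmic grid of the values of `x`.
-/

namespace Pool.Agent.Helper16.TL

open Finset Pool.Agent.Helper70.TW

/-- Powers of the logarithm are small. -/
theorem exists_threshold (A : ℕ) (K : ℝ) :
    ∃ X : ℕ, ∀ x : ℕ, X ≤ x → K * (Real.log x) ^ A ≤ (x : ℝ) := by
  have hK : (0 : ℝ) < |K| + 1 := by positivity
  have h := (Real.isLittleO_pow_log_id_atTop (n := A)).def (c := 1 / (|K| + 1)) (by positivity)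
  have h2 := (tendsto_natCast_atTop_atTop (R := ℝ)).eventually h
  obtain ⟨X, hX⟩ := Filter.eventually_atTop.1 h2
  refine ⟨X + 1, fun x hx => ?_⟩
  have h3 := hX x (by omega)
  have hx1 : (1 : ℝ) ≤ x := by exact_mod_cast (by omega : 1 ≤ x)
  have hlog : 0 ≤ Real.log x := Real.log_nonneg hx1
  rw [Real.norm_of_nonneg (by positivity), id, Real.norm_of_nonneg (by positivity)] at h3
  have h4 : (|K| + 1) * (Real.log x) ^ A ≤ (x : ℝ) := by
    calc (|K| + 1) * (Real.log x) ^ A ≤ (|K| + 1) * (1 / (|K| + 1) * (x : ℝ)) := by gcongr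
      _ = x := by field_simp
  have h5 : K * (Real.log x) ^ A ≤ (|K| + 1) * (Real.log x) ^ A := by
    have : K ≤ |K| + 1 := by linarith [le_abs_self K]
    gcongr
  linarith

/-- One value of `x` and one sequence of coefficients. -/
theorem one_point (A : ℕ) : ∃ (X : ℕ) (K : ℝ), 2 ≤ X ∧ 0 < K ∧ ∀ (x Y : ℕ) (P : Finset ℕ),
    X ≤ x → Y ≤ (2 * x) ^ 18 → (∀ p ∈ P, p.Prime ∧ Odd p ∧ p ≤ x) → ∀ c : ℕ → ℝ,
    (∀ p ∈ P, |c p| ≤ 1) → ∀ DD : Finset ℤ, (∀ D ∈ DD, Squarefree D ∧ D.natAbs ≤ Y) →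
    (∀ D ∈ DD, (x : ℝ) / (2 ^ (A + 1) * (Real.log x) ^ A) ≤
      |∑ p ∈ P, c p * ((psi D p : ℤ) : ℝ)|) →
    (DD.card : ℝ) ≤ K * (Real.log x) ^ (108 * A) * (∑ p ∈ P, c p ^ 2) / x := by
  set κ : ℝ := ((54 : ℕ) : ℝ) ^ 54 with hκ
  have hκ0 : 0 < κ := by positivity
  set W : ℝ := 2 ^ (108 * (A + 1)) with hW
  have hW0 : 0 < W := by positivity
  clear_value κ W
  obtain ⟨X, hX⟩ := exists_threshold (108 * A) (κ * 2 ^ 38 * 2 * W)
  refine ⟨X + 2, 4 * κ * W, by omega, by positivity, ?_⟩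
  intro x Y P hXx hY hP c hc DD hDD hV
  have hx2 : (2 : ℝ) ≤ x := by exact_mod_cast (by omega : 2 ≤ x)
  have hx0 : (0 : ℝ) < x := by linarith
  have hlog : 0 < Real.log x := Real.log_pos (by linarith)
  set u : ℝ := (Real.log x) ^ (108 * A) with hu
  have hu0 : 0 < u := by positivity
  set s : ℝ := ∑ p ∈ P, c p ^ 2 with hs
  have hs0 : 0 ≤ s := Finset.sum_nonneg fun p _ => sq_nonneg _
  have hPx : P.card ≤ x := by
    calc P.card ≤ (Finset.Icc 1 x).card := Finset.card_le_card (fun p hp =>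
          mem_Icc.2 ⟨(hP p hp).1.pos, (hP p hp).2.2⟩)
      _ = x := by simp
  have hsx : s ≤ x := by
    calc s ≤ ∑ p ∈ P, (1 : ℝ) := by
          refine Finset.sum_le_sum fun p hp => ?_
          have := hc p hp
          rw [← sq_abs]
          have h0 := abs_nonneg (c p)
          nlinarith
      _ = (P.card : ℝ) := by simp
      _ ≤ x := by exact_mod_cast hPx
  have key := Pool.Agent.Helper37.TL.count_le_sq 54 x Y P hP c DD hDD
    ((x : ℝ) / (2 ^ (A + 1) * (Real.log x) ^ A)) (by positivity) hV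
  rw [← hs, ← hκ] at key
  have hVpow : ((x : ℝ) / (2 ^ (A + 1) * (Real.log x) ^ A)) ^ (2 * 54) = (x : ℝ) ^ 108 / (W * u) := by
    rw [div_pow, mul_pow, ← pow_mul, ← pow_mul, hW, hu]
    congr 2
    · congr 1; ring
    · congr 1; ring
  rw [hVpow] at key
  have hth := hX x (by omega)
  rw [← hu] at hth
  -- the second term
  have hY2 : (Y : ℝ) ^ 2 ≤ 2 ^ 36 * (x : ℝ) ^ 36 := by
    have h1 : (Y : ℝ) ≤ (2 * (x : ℝ)) ^ 18 := by exact_mod_cast hY
    calc (Y : ℝ) ^ 2 ≤ ((2 * (x : ℝ)) ^ 18) ^ 2 := by gcongr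
      _ = 2 ^ 36 * (x : ℝ) ^ 36 := by ring
  have hsec : κ * s ^ 54 * (4 * (Y : ℝ) ^ 2) ≤ (x : ℝ) ^ 108 / (2 * (W * u)) := by
    rw [le_div_iff₀ (by positivity)]
    calc κ * s ^ 54 * (4 * (Y : ℝ) ^ 2) * (2 * (W * u))
        ≤ κ * (x : ℝ) ^ 54 * (4 * (2 ^ 36 * (x : ℝ) ^ 36)) * (2 * (W * u)) := by gcongr
      _ = (κ * 2 ^ 38 * 2 * W * u) * (x : ℝ) ^ 90 := by ring
      _ ≤ (x : ℝ) * (x : ℝ) ^ 90 := by gcongr
      _ = (x : ℝ) ^ 91 := by ring
      _ ≤ (x : ℝ) ^ 108 := pow_le_pow_right₀ (by linarith) (by norm_num)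
  have hN0 : (0 : ℝ) ≤ DD.card := Nat.cast_nonneg _
  have h1 : (DD.card : ℝ) * ((x : ℝ) ^ 108 / (2 * (W * u))) ≤ κ * s ^ 54 * ((x : ℝ) ^ 54 + 1) := by
    have h2 : κ * s ^ 54 * ((x : ℝ) ^ 54 + 1 + 4 * (Y : ℝ) ^ 2 * DD.card) =
        κ * s ^ 54 * ((x : ℝ) ^ 54 + 1) + κ * s ^ 54 * (4 * (Y : ℝ) ^ 2) * DD.card := by ring
    have h3 : κ * s ^ 54 * (4 * (Y : ℝ) ^ 2) * DD.card ≤
        (x : ℝ) ^ 108 / (2 * (W * u)) * DD.card := by gcongr
    have h4 : (x : ℝ) ^ 108 / (W * u) = 2 * ((x : ℝ) ^ 108 / (2 * (W * u))) := by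
      field_simp
    rw [h2, h4] at key
    nlinarith
  have h2 : κ * s ^ 54 * ((x : ℝ) ^ 54 + 1) ≤ κ * s * 2 * (x : ℝ) ^ 107 := by
    have h3 : s ^ 54 ≤ s * (x : ℝ) ^ 53 := by
      calc s ^ 54 = s * s ^ 53 := by ring
        _ ≤ s * (x : ℝ) ^ 53 := by gcongr
    have h4 : (1 : ℝ) ≤ (x : ℝ) ^ 54 := one_le_pow₀ (by linarith)
    calc κ * s ^ 54 * ((x : ℝ) ^ 54 + 1) ≤ κ * (s * (x : ℝ) ^ 53) * ((x : ℝ) ^ 54 + (x : ℝ) ^ 54) := by
          gcongr
      _ = κ * s * 2 * (x : ℝ) ^ 107 := by ring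
  have h3 := h1.trans h2
  rw [le_div_iff₀ hx0]
  have h4 : (DD.card : ℝ) * ((x : ℝ) ^ 108 / (2 * (W * u))) =
      ((DD.card : ℝ) * x) * ((x : ℝ) ^ 107 / (2 * (W * u))) := by
    field_simp
  rw [h4] at h3
  have h5 : (0 : ℝ) < (x : ℝ) ^ 107 / (2 * (W * u)) := by positivity
  have h6 : κ * s * 2 * (x : ℝ) ^ 107 = (4 * κ * W * u * s) * ((x : ℝ) ^ 107 / (2 * (W * u))) := by
    field_simp
    ring
  rw [h6] at h3
  exact le_of_mul_le_mul_right h3 h5

/-- The union over all `t` for one value of `x`. -/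
theorem all_t (A : ℕ) : ∃ (X : ℕ) (K : ℝ), 2 ≤ X ∧ 0 < K ∧ ∀ (x Y : ℕ) (P : Finset ℕ),
    X ≤ x → Y ≤ (2 * x) ^ 18 → (∀ p ∈ P, p.Prime ∧ Odd p ∧ p ≤ x) → ∀ c : ℕ → ℕ → ℝ,
    (∀ t p, |c t p| ≤ 1) →
    (∀ p ∈ P, ∀ T : Finset ℕ, ∑ t ∈ T, (c t p) ^ 2 ≤ 2 * (Nat.log 2 (2 * p + 2) : ℝ)) →
    ∀ DD : Finset ℤ, (∀ D ∈ DD, Squarefree D ∧ D.natAbs ≤ Y) →
    (∀ D ∈ DD, ∃ t : ℕ, (x : ℝ) / (2 ^ (A + 1) * (Real.log x) ^ A) ≤
      |∑ p ∈ P, c t p * ((psi D p : ℤ) : ℝ)|) →
    (DD.card : ℝ) ≤ K * (Real.log x) ^ (108 * A) * (2 * (Nat.log 2 (2 * x + 2) : ℝ)) := by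
  classical
  obtain ⟨X, K, hX2, hK, H⟩ := one_point A
  refine ⟨X, K, hX2, hK, ?_⟩
  intro x Y P hXx hY hP c hc hsum DD hDD hV
  have hx2 : (2 : ℝ) ≤ x := by exact_mod_cast (by omega : 2 ≤ x)
  have hx0 : (0 : ℝ) < x := by linarith
  have hlog : 0 < Real.log x := Real.log_pos (by linarith)
  have hV' : ∀ D : ℤ, ∃ t : ℕ, D ∈ DD → (x : ℝ) / (2 ^ (A + 1) * (Real.log x) ^ A) ≤
      |∑ p ∈ P, c t p * ((psi D p : ℤ) : ℝ)| := by
    intro D
    by_cases hD : D ∈ DD
    · obtain ⟨t, ht⟩ := hV D hD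
      exact ⟨t, fun _ => ht⟩
    · exact ⟨0, fun h => absurd h hD⟩
  choose τ hτ using hV'
  have hPx : P.card ≤ x := by
    calc P.card ≤ (Finset.Icc 1 x).card := Finset.card_le_card (fun p hp =>
          mem_Icc.2 ⟨(hP p hp).1.pos, (hP p hp).2.2⟩)
      _ = x := by simp
  have h1 : (DD.card : ℝ) = ∑ t ∈ DD.image τ, ((DD.filter (fun D => τ D = t)).card : ℝ) := by
    rw [Finset.card_eq_sum_card_image τ DD]
    push_cast
    rfl
  have h2 : ∀ t ∈ DD.image τ, ((DD.filter (fun D => τ D = t)).card : ℝ) ≤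
      K * (Real.log x) ^ (108 * A) * (∑ p ∈ P, c t p ^ 2) / x := by
    intro t _
    refine H x Y P hXx hY hP (c t) (fun p _ => hc t p) _ (fun D hD => hDD D (mem_filter.1 hD).1) ?_
    intro D hD
    have h3 := hτ D (mem_filter.1 hD).1
    rw [(mem_filter.1 hD).2] at h3
    exact h3
  rw [h1]
  calc ∑ t ∈ DD.image τ, ((DD.filter (fun D => τ D = t)).card : ℝ)
      ≤ ∑ t ∈ DD.image τ, K * (Real.log x) ^ (108 * A) * (∑ p ∈ P, c t p ^ 2) / x :=
        Finset.sum_le_sum h2
    _ = K * (Real.log x) ^ (108 * A) * (∑ p ∈ P, ∑ t ∈ DD.image τ, c t p ^ 2) / x := by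
        rw [← Finset.sum_div, ← Finset.mul_sum, Finset.sum_comm]
    _ ≤ K * (Real.log x) ^ (108 * A) * (x * (2 * (Nat.log 2 (2 * x + 2) : ℝ))) / x := by
        have h3 : ∑ p ∈ P, ∑ t ∈ DD.image τ, c t p ^ 2 ≤
            (x : ℝ) * (2 * (Nat.log 2 (2 * x + 2) : ℝ)) := by
          calc ∑ p ∈ P, ∑ t ∈ DD.image τ, c t p ^ 2
              ≤ ∑ p ∈ P, (2 * (Nat.log 2 (2 * x + 2) : ℝ)) := by
                refine Finset.sum_le_sum fun p hp => (hsum p hp _).trans ?_
                have : Nat.log 2 (2 * p + 2) ≤ Nat.log 2 (2 * x + 2) :=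
                  Nat.log_mono_right (by have := (hP p hp).2.2; omega)
                have h4 : (Nat.log 2 (2 * p + 2) : ℝ) ≤ (Nat.log 2 (2 * x + 2) : ℝ) := by
                  exact_mod_cast this
                linarith
            _ = (P.card : ℝ) * (2 * (Nat.log 2 (2 * x + 2) : ℝ)) := by
                rw [Finset.sum_const, nsmul_eq_mul]
            _ ≤ (x : ℝ) * (2 * (Nat.log 2 (2 * x + 2) : ℝ)) := by
                have : (P.card : ℝ) ≤ x := by exact_mod_cast hPx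
                gcongr
        gcongr
    _ = K * (Real.log x) ^ (108 * A) * (2 * (Nat.log 2 (2 * x + 2) : ℝ)) := by
        field_simp

/-- The change of the sum between two values of `x`. -/
theorem abs_sub_le (Q : ℕ → Prop) [DecidablePred Q] (c : ℕ → ℝ) (hc : ∀ p, |c p| ≤ 1) (D : ℤ)
    (g x : ℕ) (hgx : g ≤ x) :
    |∑ p ∈ (range (x + 1)).filter Q, c p * ((psi D p : ℤ) : ℝ)| ≤
      |∑ p ∈ (range (g + 1)).filter Q, c p * ((psi D p : ℤ) : ℝ)| + ((x : ℝ) - g) := by
  have hsub : (range (g + 1)).filter Q ⊆ (range (x + 1)).filter Q := by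
    refine Finset.filter_subset_filter _ ?_
    exact range_subset_range.2 (by omega)
  rw [← Finset.sum_sdiff hsub]
  refine (abs_add_le _ _).trans ?_
  rw [add_comm]
  refine add_le_add le_rfl ?_
  have hcard : ((range (x + 1)).filter Q \ (range (g + 1)).filter Q).card ≤ x - g := by
    calc _ ≤ (Finset.Ioc g x).card := by
          refine Finset.card_le_card ?_
          intro p hp
          rw [mem_sdiff, mem_filter, mem_filter, mem_range, mem_range] at hp
          rw [mem_Ioc]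
          obtain ⟨⟨h1, h2⟩, h3⟩ := hp
          refine ⟨?_, by omega⟩
          by_contra h4
          exact h3 ⟨by omega, h2⟩
      _ = x - g := by simp
  calc _ ≤ ∑ p ∈ (range (x + 1)).filter Q \ (range (g + 1)).filter Q,
        |c p * ((psi D p : ℤ) : ℝ)| := Finset.abs_sum_le_sum_abs _ _
    _ ≤ ∑ p ∈ (range (x + 1)).filter Q \ (range (g + 1)).filter Q, (1 : ℝ) := by
        refine Finset.sum_le_sum fun p _ => ?_
        rw [abs_mul]
        have h1 : |((psi D p : ℤ) : ℝ)| ≤ 1 := by exact_mod_cast psi_abs_le D p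
        calc |c p| * |((psi D p : ℤ) : ℝ)| ≤ 1 * 1 :=
              mul_le_mul (hc p) h1 (abs_nonneg _) zero_le_one
          _ = 1 := one_mul 1
    _ = (((range (x + 1)).filter Q \ (range (g + 1)).filter Q).card : ℝ) := by simp
    _ ≤ ((x - g : ℕ) : ℝ) := by exact_mod_cast hcard
    _ = (x : ℝ) - g := by rw [Nat.cast_sub hgx]

theorem log_two_le {g L : ℕ} (hL : 1 ≤ L) (hg1 : 1 ≤ g) (hg : (g : ℝ) ≤ Real.exp L) :
    (Nat.log 2 (2 * g + 2) : ℝ) ≤ 4 * L := by
  have h1 : 2 ^ (Nat.log 2 (2 * g + 2)) ≤ 2 * g + 2 := Nat.pow_log_le_self 2 (by omega)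
  have h2 : (2 : ℝ) ^ (Nat.log 2 (2 * g + 2)) ≤ 4 * Real.exp L := by
    have h3 : ((2 ^ (Nat.log 2 (2 * g + 2)) : ℕ) : ℝ) ≤ ((2 * g + 2 : ℕ) : ℝ) := by
      exact_mod_cast h1
    push_cast at h3
    have h4 : (1 : ℝ) ≤ g := by exact_mod_cast hg1
    linarith
  have h3 := Real.log_le_log (by positivity) h2
  rw [Real.log_pow, Real.log_mul (by norm_num) (by positivity), Real.log_exp] at h3
  have h5 : Real.log 4 = 2 * Real.log 2 := by
    rw [show (4 : ℝ) = 2 ^ 2 by norm_num, Real.log_pow]; norm_num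
  rw [h5] at h3
  have h6 := Real.log_two_gt_d9
  have h7 := Real.log_two_lt_d9
  have h8 : (1 : ℝ) ≤ L := by exact_mod_cast hL
  have h9 : (0 : ℝ) ≤ (Nat.log 2 (2 * g + 2) : ℝ) := Nat.cast_nonneg _
  nlinarith

/-- The large range. -/
theorem large (A : ℕ) : ∃ (C : ℝ) (m : ℕ), 0 < C ∧ ∀ (Q : ℕ → Prop) [DecidablePred Q],
    (∀ p, Q p → p.Prime ∧ Odd p) → ∀ (c : ℕ → ℕ → ℝ), (∀ t p, |c t p| ≤ 1) →
    (∀ p, Q p → ∀ T : Finset ℕ, ∑ t ∈ T, (c t p) ^ 2 ≤ 2 * (Nat.log 2 (2 * p + 2) : ℝ)) →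
    ∀ (Y L : ℕ), 1 ≤ L → ∀ DD : Finset ℤ,
    (∀ D ∈ DD, Squarefree D ∧ D.natAbs ≤ Y ∧ ∃ x t : ℕ, 2 ≤ x ∧ Y ≤ x ^ 18 ∧
      (x : ℝ) ≤ Real.exp L ∧ (x : ℝ) / (Real.log x) ^ A ≤
        |∑ p ∈ (range (x + 1)).filter Q, c t p * ((psi D p : ℤ) : ℝ)|) →
    (DD.card : ℝ) ≤ C * (L : ℝ) ^ m := by
  classical
  obtain ⟨X1, K, hX1, hK, H⟩ := all_t A
  obtain ⟨X2, hX2⟩ := exists_threshold A 4
  set X := X1 + X2 with hX
  refine ⟨(2 * (2 * (X : ℝ)) ^ 18 + 1) + 72 * K, 109 * A + 2, by positivity, ?_⟩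
  intro Q _ hQ c hc hsum Y L hL DD hDD
  have hL1 : (1 : ℝ) ≤ L := by exact_mod_cast hL
  by_cases hYX : Y ≤ (2 * X) ^ 18
  · -- few discriminants
    have h1 : DD.card ≤ 2 * Y + 1 := by
      calc DD.card ≤ (Finset.Icc (-(Y : ℤ)) Y).card := by
            refine Finset.card_le_card ?_
            intro D hD
            have := (hDD D hD).2.1
            rw [mem_Icc]
            omega
        _ = 2 * Y + 1 := by
            rw [Int.card_Icc]
            omega
    have h2 : (DD.card : ℝ) ≤ 2 * (2 * (X : ℝ)) ^ 18 + 1 := by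
      have h3 : (DD.card : ℝ) ≤ 2 * (Y : ℝ) + 1 := by exact_mod_cast h1
      have h4 : (Y : ℝ) ≤ (2 * (X : ℝ)) ^ 18 := by exact_mod_cast hYX
      linarith
    calc (DD.card : ℝ) ≤ ((2 * (2 * (X : ℝ)) ^ 18 + 1) + 72 * K) * 1 := by linarith
      _ ≤ ((2 * (2 * (X : ℝ)) ^ 18 + 1) + 72 * K) * (L : ℝ) ^ (109 * A + 2) := by
          have : (1 : ℝ) ≤ (L : ℝ) ^ (109 * A + 2) := one_le_pow₀ hL1
          gcongr
  · push Not at hYX
    set M : ℕ := 8 * L ^ A with hM
    have hM8 : 8 ≤ M := by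
      have : 1 ≤ L ^ A := Nat.one_le_pow _ _ hL
      omega
    have hM8' : (8 : ℝ) ≤ M := by exact_mod_cast hM8
    have hMcast : (M : ℝ) = 8 * (L : ℝ) ^ A := by rw [hM]; push_cast; ring
    -- the choice of `x`
    have hch : ∀ D : ℤ, ∃ x : ℕ, D ∈ DD → (2 ≤ x ∧ Y ≤ x ^ 18 ∧
      (x : ℝ) ≤ Real.exp L ∧ ∃ t : ℕ, (x : ℝ) / (Real.log x) ^ A ≤
        |∑ p ∈ (range (x + 1)).filter Q, c t p * ((psi D p : ℤ) : ℝ)|) := by
      intro D
      by_cases hD : D ∈ DD
      · obtain ⟨-, -, x, t, h1, h2, h3, h4⟩ := hDD D hD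
        exact ⟨x, fun _ => ⟨h1, h2, h3, t, h4⟩⟩
      · exact ⟨0, fun h => absurd h hD⟩
    choose ξ hξ using hch
    let J : ℤ → ℕ := fun D => ⌊(M : ℝ) * Real.log (ξ D)⌋₊
    have hJ : ∀ D ∈ DD, J D ∈ range (M * L + 1) := by
      intro D hD
      obtain ⟨h1, -, h3, -⟩ := hξ D hD
      rw [mem_range, Nat.lt_succ_iff]
      have h4 : Real.log (ξ D) ≤ L := by
        rw [Real.log_le_iff_le_exp (by positivity)]
        exact h3
      refine Nat.floor_le_of_le ?_
      push_cast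
      gcongr
    have hcard : (DD.card : ℝ) = ∑ j ∈ range (M * L + 1),
        ((DD.filter (fun D => J D = j)).card : ℝ) := by
      rw [Finset.card_eq_sum_card_fiberwise (f := J) (t := range (M * L + 1)) hJ]
      push_cast
      rfl
    have hfib : ∀ j ∈ range (M * L + 1), ((DD.filter (fun D => J D = j)).card : ℝ) ≤
        K * (L : ℝ) ^ (108 * A) * (2 * (4 * L)) := by
      intro j _
      rcases Finset.eq_empty_or_nonempty (DD.filter (fun D => J D = j)) with he | hne
      · rw [he, Finset.card_empty]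
        push_cast
        positivity
      set g : ℕ := ⌊Real.exp ((j : ℝ) / M)⌋₊ with hg
      -- properties of the grid point
      have hprop : ∀ D ∈ DD.filter (fun D => J D = j), X ≤ g ∧ g ≤ ξ D ∧
          Y ≤ (2 * g) ^ 18 ∧ (∃ t : ℕ, (g : ℝ) / (2 ^ (A + 1) * (Real.log g) ^ A) ≤
          |∑ p ∈ (range (g + 1)).filter Q, c t p * ((psi D p : ℤ) : ℝ)|) := by
        intro D hD
        obtain ⟨hD1, hD2⟩ := mem_filter.1 hD
        obtain ⟨h1, h2, h3, t, h4⟩ := hξ D hD1
        set x : ℕ := ξ D with hx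
        have hxX : 2 * X < x := by
          by_contra h
          push Not at h
          have : x ^ 18 ≤ (2 * X) ^ 18 := Nat.pow_le_pow_left h 18
          omega
        have hx4 : (4 : ℝ) < x := by
          have : 4 < x := by omega
          exact_mod_cast this
        have hx0 : (0 : ℝ) < x := by linarith
        have hlogx : 0 < Real.log x := Real.log_pos (by linarith)
        have hlogL : Real.log x ≤ L := by
          rw [Real.log_le_iff_le_exp (by positivity)]
          exact h3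
        have hj1 : (j : ℝ) ≤ M * Real.log x := by
          rw [← hD2]
          exact Nat.floor_le (by positivity)
        have hj2 : (M : ℝ) * Real.log x < j + 1 := by
          rw [← hD2]
          exact Nat.lt_floor_add_one _
        set a : ℝ := Real.exp ((j : ℝ) / M) with ha
        have ha0 : 0 < a := Real.exp_pos _
        have hax : a ≤ x := by
          rw [ha, ← Real.le_log_iff_exp_le hx0, div_le_iff₀ (by linarith)]
          linarith
        have hxa : (x : ℝ) ≤ a * (1 + 2 / M) := by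
          have h5 : (x : ℝ) ≤ Real.exp ((j : ℝ) / M + 1 / M) := by
            rw [← Real.log_le_iff_le_exp hx0, ← add_div, le_div_iff₀ (by linarith)]
            linarith
          rw [Real.exp_add] at h5
          have h6 : Real.exp (1 / (M : ℝ)) ≤ 1 + 2 / M := by
            have h7 : |(1 : ℝ) / M| ≤ 1 := by
              rw [abs_of_pos (by positivity), div_le_one (by linarith)]
              linarith
            have h8 := Real.abs_exp_sub_one_le h7
            rw [abs_of_pos (a := (1 : ℝ) / M) (by positivity)] at h8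
            have h9 := (abs_le.1 h8).2
            have h10 : 2 * (1 / (M : ℝ)) = 2 / M := by ring
            linarith
          calc (x : ℝ) ≤ a * Real.exp (1 / (M : ℝ)) := h5
            _ ≤ a * (1 + 2 / M) := by gcongr
        have hga : (g : ℝ) ≤ a := Nat.floor_le ha0.le
        have hag : a < g + 1 := Nat.lt_floor_add_one a
        have hgx : g ≤ x := by
          have : (g : ℝ) ≤ x := hga.trans hax
          exact_mod_cast this
        have hM2 : 2 / (M : ℝ) ≤ 1 / 4 := by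
          rw [div_le_div_iff₀ (by linarith) (by norm_num)]
          linarith
        have hx54 : (x : ℝ) ≤ a * (5 / 4) := by
          calc (x : ℝ) ≤ a * (1 + 2 / M) := hxa
            _ ≤ a * (5 / 4) := by gcongr; linarith
        have hx2g : (x : ℝ) ≤ 2 * g := by linarith
        have hx2g' : x ≤ 2 * g := by exact_mod_cast hx2g
        refine ⟨by omega, hgx, ?_, t, ?_⟩
        · exact h2.trans (Nat.pow_le_pow_left hx2g' 18)
        · have h5 := abs_sub_le Q (c t) (fun p => hc t p) D g x hgx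
          have h6 : (x : ℝ) - g ≤ x / (2 * (Real.log x) ^ A) := by
            have h7 : (x : ℝ) - g ≤ a * (2 / M) + 1 := by nlinarith
            have h8 : a * (2 / M) ≤ x / (4 * (Real.log x) ^ A) := by
              calc a * (2 / M) ≤ x * (2 / M) := by gcongr
                _ = x / (4 * (L : ℝ) ^ A) := by
                  rw [hMcast]; field_simp; norm_num
                _ ≤ x / (4 * (Real.log x) ^ A) := by gcongr
            have h9 : (1 : ℝ) ≤ x / (4 * (Real.log x) ^ A) := by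
              rw [le_div_iff₀ (by positivity), one_mul]
              exact hX2 x (by omega)
            have h10 : (x : ℝ) / (2 * (Real.log x) ^ A) =
                x / (4 * (Real.log x) ^ A) + x / (4 * (Real.log x) ^ A) := by
              field_simp; norm_num
            rw [h10]
            linarith
          have h7 : (g : ℝ) / (2 ^ (A + 1) * (Real.log g) ^ A) ≤ x / (2 * (Real.log x) ^ A) := by
            have hg2 : (2 : ℝ) ≤ g := by
              have : 2 ≤ g := by omega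
              exact_mod_cast this
            have hlogg : 0 < Real.log g := Real.log_pos (by linarith)
            have h8 : Real.log x ≤ 2 * Real.log g := by
              calc Real.log x ≤ Real.log (2 * g) := Real.log_le_log hx0 hx2g
                _ = Real.log 2 + Real.log g := Real.log_mul (by norm_num) (by positivity)
                _ ≤ Real.log g + Real.log g := by
                    have := Real.log_le_log (by norm_num) hg2
                    linarith
                _ = 2 * Real.log g := by ring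
            calc (g : ℝ) / (2 ^ (A + 1) * (Real.log g) ^ A) = g / (2 * (2 * Real.log g) ^ A) := by
                  rw [mul_pow]; congr 1; ring
              _ ≤ x / (2 * (Real.log x) ^ A) := by
                  have : (g : ℝ) ≤ x := by exact_mod_cast hgx
                  gcongr
          have h8 : (x : ℝ) / (Real.log x) ^ A =
              x / (2 * (Real.log x) ^ A) + x / (2 * (Real.log x) ^ A) := by
            field_simp; norm_num
          rw [h8] at h4
          linarith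
      obtain ⟨D0, hD0⟩ := hne
      obtain ⟨hg1, hg2, hg3, -⟩ := hprop D0 hD0
      obtain ⟨k1, -, k3, -⟩ := hξ D0 (mem_filter.1 hD0).1
      have hgL : (g : ℝ) ≤ Real.exp L := by
        have : (g : ℝ) ≤ (ξ D0 : ℝ) := by exact_mod_cast hg2
        exact this.trans k3
      have hg2' : 2 ≤ g := by omega
      have hg2'' : (2 : ℝ) ≤ g := by exact_mod_cast hg2'
      have hlogg : 0 < Real.log g := Real.log_pos (by linarith)
      have hloggL : Real.log g ≤ L := by
        rw [Real.log_le_iff_le_exp (by positivity)]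
        exact hgL
      have h1 := H g Y ((range (g + 1)).filter Q) (by omega) hg3 (by
        intro p hp
        obtain ⟨h1, h2⟩ := mem_filter.1 hp
        exact ⟨(hQ p h2).1, (hQ p h2).2, by have := mem_range.1 h1; omega⟩) c hc (by
        intro p hp T
        exact hsum p (mem_filter.1 hp).2 T) (DD.filter (fun D => J D = j)) (by
        intro D hD
        have := hDD D (mem_filter.1 hD).1
        exact ⟨this.1, this.2.1⟩) (by
        intro D hD
        exact (hprop D hD).2.2.2)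
      calc _ ≤ _ := h1
        _ ≤ K * (L : ℝ) ^ (108 * A) * (2 * (4 * L)) := by
            have h2 := log_two_le hL (by omega) hgL
            gcongr
    rw [hcard]
    calc ∑ j ∈ range (M * L + 1), ((DD.filter (fun D => J D = j)).card : ℝ)
        ≤ ∑ j ∈ range (M * L + 1), K * (L : ℝ) ^ (108 * A) * (2 * (4 * L)) :=
          Finset.sum_le_sum hfib
      _ = ((M : ℝ) * L + 1) * (K * (L : ℝ) ^ (108 * A) * (2 * (4 * L))) := by
          rw [Finset.sum_const, card_range, nsmul_eq_mul]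
          push_cast
          ring
      _ ≤ (9 * (L : ℝ) ^ (A + 1)) * (K * (L : ℝ) ^ (108 * A) * (2 * (4 * L))) := by
          have h1 : (1 : ℝ) ≤ (L : ℝ) ^ (A + 1) := one_le_pow₀ hL1
          have h2 : (M : ℝ) * L = 8 * (L : ℝ) ^ (A + 1) := by rw [hMcast]; ring
          have h3 : (M : ℝ) * L + 1 ≤ 9 * (L : ℝ) ^ (A + 1) := by rw [h2]; linarith
          gcongr
      _ = 72 * K * (L : ℝ) ^ (109 * A + 2) := by ring
      _ ≤ ((2 * (2 * (X : ℝ)) ^ 18 + 1) + 72 * K) * (L : ℝ) ^ (109 * A + 2) := by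
          have : (0 : ℝ) ≤ 2 * (2 * (X : ℝ)) ^ 18 + 1 := by positivity
          gcongr
          linarith

end Pool.Agent.Helper16.TL
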