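import Pool.Agent.Helper70.TW.Scale
import Pool.Agent.Helper80.TL.Small
import Pool.Agent.Helper80.TL.SmallDiv
import Pool.Agent.Helper16.TL.Large

set_option autoImplicit false

/-!
# The twist law
-/

namespace Pool.Agent.Helper16.TL

open Finset Pool.Agent.Helper70.TW Pool.Agent.Helper28.Koblitz

theorem sum_ind_le' (N : ℕ) (T : Finset ℕ) : ∑ t ∈ T, ind t N ≤ (Nat.log 2 N : ℝ) := by
  classical
  rcases Nat.eq_zero_or_pos N with h0 | h0
  · subst h0
    have : ∀ t ∈ T, ind t 0 = 0 := by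
      intro t _
      unfold ind
      rw [if_neg]
      rintro ⟨-, h2⟩
      rw [Nat.zero_div] at h2
      exact Nat.not_prime_zero h2
    rw [Finset.sum_congr rfl this]
    simp
  · have h1 : ∑ t ∈ T, ind t N = ((T.filter (fun t => t ∣ N ∧ Nat.Prime (N / t))).card : ℝ) := by
      unfold ind
      rw [Finset.card_filter]
      push_cast
      rfl
    have h2 : (T.filter (fun t => t ∣ N ∧ Nat.Prime (N / t))).card ≤ N.primeFactors.card := by
      refine Finset.card_le_card_of_injOn (fun t => N / t) ?_ ?_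
      · intro t ht
        rw [Finset.mem_coe, mem_filter] at ht
        rw [Finset.mem_coe, Nat.mem_primeFactors]
        exact ⟨ht.2.2, Nat.div_dvd_of_dvd ht.2.1, h0.ne'⟩
      · intro t ht t' ht' h
        rw [Finset.mem_coe, mem_filter] at ht ht'
        simp only at h
        have e1 : N / (N / t) = t := Nat.div_div_self ht.2.1 h0.ne'
        have e2 : N / (N / t') = t' := Nat.div_div_self ht'.2.1 h0.ne'
        rw [← e1, h, e2]
    rw [h1]
    exact_mod_cast h2.trans (card_primeFactors_le N h0.ne')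

theorem cf_sum (E : WeierstrassCurve ℤ) {x p : ℕ} (hp : p ∈ goodP E x) (T : Finset ℕ) :
    ∑ t ∈ T, (cf E t p) ^ 2 ≤ 2 * (Nat.log 2 (2 * p + 2) : ℝ) := by
  have h1 : ∑ t ∈ T, (cf E t p) ^ 2 ≤ ∑ t ∈ T, ind t (numPts E p) +
      ∑ t ∈ T, ind t (2 * p + 2 - numPts E p) := by
    rw [← Finset.sum_add_distrib]
    exact Finset.sum_le_sum fun t _ => cf_sq_le E t p
  have h2 := sum_ind_le' (numPts E p) T
  have h3 := sum_ind_le' (2 * p + 2 - numPts E p) T
  have h4 : (Nat.log 2 (numPts E p) : ℝ) ≤ (Nat.log 2 (2 * p + 2) : ℝ) := by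
    exact_mod_cast Nat.log_mono_right (numPts_le hp)
  have h5 : (Nat.log 2 (2 * p + 2 - numPts E p) : ℝ) ≤ (Nat.log 2 (2 * p + 2) : ℝ) := by
    exact_mod_cast Nat.log_mono_right (Nat.sub_le _ _)
  linarith

open Classical in
/-- The twists which do not follow the mean at some `x` in the range. -/
noncomputable def bad (E : WeierstrassCurve ℤ) (A X0 Y L : ℕ) : Finset ℤ :=
  (Icc (-(Y : ℤ)) Y).filter (fun D => Squarefree D ∧ ∃ x t : ℕ, X0 ≤ x ∧ 2 ≤ x ∧
    (x : ℝ) ≤ Real.exp L ∧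
    (x : ℝ) / (Real.log x) ^ A < |(koblitzCount (quadTwist E D) t x : ℝ) - meanCount E t x|)

/-- The twist law. -/
theorem twist_law (A : ℕ) : ∃ (C : ℝ) (m : ℕ), 0 < C ∧ ∀ (E : WeierstrassCurve ℤ) (X0 Y L : ℕ),
    1 ≤ X0 → 1 ≤ Y → 1 ≤ L →
    ((bad E A X0 Y L).card : ℝ) ≤ C * (Y / Real.sqrt X0 + Real.sqrt Y + (L : ℝ) ^ m) := by
  classical
  obtain ⟨C1, H1⟩ := Pool.Agent.Helper80.TL.small A
  obtain ⟨C2, H2⟩ := Pool.Agent.Helper80.TL.small_div (A + 1)
  obtain ⟨C3, m, hC3, H3⟩ := large A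
  refine ⟨9 + |C1| + |C2| + C3, m, by positivity, ?_⟩
  intro E X0 Y L hX0 hY hL
  have hX0' : (1 : ℝ) ≤ X0 := by exact_mod_cast hX0
  have hY' : (1 : ℝ) ≤ Y := by exact_mod_cast hY
  have hL' : (1 : ℝ) ≤ L := by exact_mod_cast hL
  have hs0 : 0 < Real.sqrt X0 := Real.sqrt_pos.2 (by linarith)
  have hT1 : 0 ≤ (Y : ℝ) / Real.sqrt X0 := by positivity
  have hT2 : 0 ≤ Real.sqrt Y := Real.sqrt_nonneg _
  have hT3 : 0 ≤ (L : ℝ) ^ m := by positivity
  have hmemY : ∀ D ∈ bad E A X0 Y L, D.natAbs ≤ Y := by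
    intro D hD
    have := mem_Icc.1 (mem_filter.1 hD).1
    omega
  have hsqf : ∀ D ∈ bad E A X0 Y L, Squarefree D := fun D hD => (mem_filter.1 hD).2.1
  rcases lt_or_ge X0 9 with h9 | h9
  · have h1 : (bad E A X0 Y L).card ≤ 2 * Y + 1 := by
      calc (bad E A X0 Y L).card ≤ (Finset.Icc (-(Y : ℤ)) Y).card := Finset.card_filter_le _ _
        _ = 2 * Y + 1 := by
            rw [Int.card_Icc]
            omega
    have h2 : ((bad E A X0 Y L).card : ℝ) ≤ 2 * (Y : ℝ) + 1 := by exact_mod_cast h1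
    have h3 : Real.sqrt X0 ≤ 3 := by
      rw [Real.sqrt_le_left (by norm_num)]
      have : (X0 : ℝ) ≤ 9 := by exact_mod_cast h9.le
      linarith
    have h4 : (Y : ℝ) ≤ 3 * (Y / Real.sqrt X0) := by
      rw [← mul_div_assoc, le_div_iff₀ hs0]
      nlinarith
    have h5 : (0 : ℝ) ≤ |C1| + |C2| + C3 := by positivity
    have h6 : 0 ≤ (|C1| + |C2| + C3) * ((Y : ℝ) / Real.sqrt X0 + Real.sqrt Y + (L : ℝ) ^ m) := by
      positivity
    have h7 : (9 + |C1| + |C2| + C3) * ((Y : ℝ) / Real.sqrt X0 + Real.sqrt Y + (L : ℝ) ^ m) =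
      9 * (Y / Real.sqrt X0) + 9 * (Real.sqrt Y + (L : ℝ) ^ m) +
      (|C1| + |C2| + C3) * ((Y : ℝ) / Real.sqrt X0 + Real.sqrt Y + (L : ℝ) ^ m) := by ring
    rw [h7]
    linarith
  · -- the three sets
    set B1 := (bad E A X0 Y L).filter (fun D => ∃ x t : ℕ, X0 ≤ x ∧ 2 ≤ x ∧ x ^ 18 ≤ Y ∧
      t ≤ 2 * x + 2 ∧ (x : ℝ) / (Real.log x) ^ A ≤
        |∑ p ∈ goodP E x, cf E t p * ((psi D p : ℤ) : ℝ)|) with hB1
    set B2 := (bad E A X0 Y L).filter (fun D => ∃ x t : ℕ, 2 ≤ x ∧ Y ≤ x ^ 18 ∧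
      (x : ℝ) ≤ Real.exp L ∧ (x : ℝ) / (Real.log x) ^ A ≤
        |∑ p ∈ goodP E x, cf E t p * ((psi D p : ℤ) : ℝ)|) with hB2
    set B3 := (bad E A X0 Y L).filter (fun D => ∃ x : ℕ, X0 ≤ x ∧ 2 ≤ x ∧
      (x : ℝ) / (Real.log x) ^ (A + 1) ≤
        (((goodP E x).filter (fun p : ℕ => (p : ℤ) ∣ D)).card : ℝ)) with hB3
    have hcover : bad E A X0 Y L ⊆ B1 ∪ (B2 ∪ B3) := by
      intro D hD
      obtain ⟨-, -, x, t, h1, h2, h3, h4⟩ := mem_filter.1 hD
      have hx9 : (9 : ℝ) ≤ x := by exact_mod_cast h9.trans h1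
      have hlog2 : 2 ≤ Real.log x := by
        rw [Real.le_log_iff_exp_le (by linarith)]
        have h5 := Real.exp_one_lt_d9
        have h6 : Real.exp 2 = Real.exp 1 * Real.exp 1 := by
          rw [← Real.exp_add]; norm_num
        rw [h6]
        have h7 := Real.exp_pos 1
        nlinarith
      have hlog0 : 0 < Real.log x := by linarith
      have h5 := abs_sub_mean_le' E D t x
      rw [mem_union, mem_union]
      by_cases hS : (x : ℝ) / (Real.log x) ^ A ≤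
          |∑ p ∈ goodP E x, cf E t p * ((psi D p : ℤ) : ℝ)|
      · rcases le_total (x ^ 18) Y with h6 | h6
        · left
          rw [hB1, mem_filter]
          refine ⟨hD, x, t, h1, h2, h6, ?_, hS⟩
          by_contra h7
          push Not at h7
          have h8 := SS_eq_zero E D h7
          unfold SS at h8
          rw [h8, abs_zero] at hS
          have : 0 < (x : ℝ) / (Real.log x) ^ A := by positivity
          linarith
        · right; left
          rw [hB2, mem_filter]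
          exact ⟨hD, x, t, h2, h6, h3, hS⟩
      · right; right
        push Not at hS
        rw [hB3, mem_filter]
        refine ⟨hD, x, h1, h2, ?_⟩
        have h6 : (x : ℝ) / (Real.log x) ^ (A + 1) ≤ (x : ℝ) / (Real.log x) ^ A / 2 := by
          rw [div_div]
          rw [pow_succ]
          gcongr
        linarith
    have hc1 : (B1.card : ℝ) ≤ C1 * (Y / Real.sqrt X0 + Real.sqrt Y) := by
      refine H1 (goodP E) ?_ (cf E) (cf_abs E) Y X0 hX0 hY B1 ?_
      · intro x p hp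
        obtain ⟨k1, k2, -, -, k5, -⟩ := goodP_mem hp
        exact ⟨k2, k5, k1⟩
      · intro D hD
        obtain ⟨k1, k2⟩ := mem_filter.1 hD
        exact ⟨hmemY D k1, k2⟩
    have hc3 : (B3.card : ℝ) ≤ C2 * (Y / Real.sqrt X0) := by
      refine H2 (goodP E) ?_ Y X0 hX0 B3 ?_
      · intro x p hp
        obtain ⟨k1, k2, -, -, k5, -⟩ := goodP_mem hp
        exact ⟨k2, k1⟩
      · intro D hD
        obtain ⟨k1, k2⟩ := mem_filter.1 hD
        exact ⟨(hsqf D k1).ne_zero, hmemY D k1, k2⟩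
    have hc2 : (B2.card : ℝ) ≤ C3 * (L : ℝ) ^ m := by
      have hQ : ∀ p : ℕ, (p.Prime ∧ ¬ ((p : ℤ) ∣ 6 * E.Δ)) → p ∈ goodP E p := by
        intro p hp
        unfold goodP
        rw [mem_filter, mem_range]
        exact ⟨by omega, hp⟩
      refine H3 (fun p : ℕ => p.Prime ∧ ¬ ((p : ℤ) ∣ 6 * E.Δ)) ?_ (cf E) (cf_abs E) ?_ Y L hL B2 ?_
      · intro p hp
        obtain ⟨-, k2, -, -, k5, -⟩ := goodP_mem (hQ p hp)
        exact ⟨k2, k5⟩
      · intro p hp T
        exact cf_sum E (hQ p hp) T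
      · intro D hD
        obtain ⟨k1, k2⟩ := mem_filter.1 hD
        exact ⟨hsqf D k1, hmemY D k1, k2⟩
    have hcard : ((bad E A X0 Y L).card : ℝ) ≤ B1.card + (B2.card + B3.card) := by
      have h1 := (Finset.card_le_card hcover).trans (Finset.card_union_le _ _)
      have h2 := Finset.card_union_le B2 B3
      have h3 : (bad E A X0 Y L).card ≤ B1.card + (B2.card + B3.card) := by omega
      exact_mod_cast h3
    have e1 : C1 * ((Y : ℝ) / Real.sqrt X0 + Real.sqrt Y) ≤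
        |C1| * ((Y : ℝ) / Real.sqrt X0 + Real.sqrt Y) :=
      mul_le_mul_of_nonneg_right (le_abs_self C1) (by positivity)
    have e2 : C2 * ((Y : ℝ) / Real.sqrt X0) ≤ |C2| * ((Y : ℝ) / Real.sqrt X0) :=
      mul_le_mul_of_nonneg_right (le_abs_self C2) (by positivity)
    have e3 : 0 ≤ |C1| * (L : ℝ) ^ m := by positivity
    have e4 : 0 ≤ |C2| * (Real.sqrt Y + (L : ℝ) ^ m) := by positivity
    have e5 : 0 ≤ C3 * ((Y : ℝ) / Real.sqrt X0 + Real.sqrt Y) := by positivity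
    have e6 : 0 ≤ 9 * ((Y : ℝ) / Real.sqrt X0 + Real.sqrt Y + (L : ℝ) ^ m) := by positivity
    have e7 : (9 + |C1| + |C2| + C3) * ((Y : ℝ) / Real.sqrt X0 + Real.sqrt Y + (L : ℝ) ^ m) =
      9 * ((Y : ℝ) / Real.sqrt X0 + Real.sqrt Y + (L : ℝ) ^ m) +
      (|C1| * ((Y : ℝ) / Real.sqrt X0 + Real.sqrt Y) + |C1| * (L : ℝ) ^ m) +
      (|C2| * ((Y : ℝ) / Real.sqrt X0) + |C2| * (Real.sqrt Y + (L : ℝ) ^ m)) +
      (C3 * (L : ℝ) ^ m + C3 * ((Y : ℝ) / Real.sqrt X0 + Real.sqrt Y)) := by ring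
    rw [e7]
    linarith

end Pool.Agent.Helper16.TL
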