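import Pool.Agent.Helper70.TW.Scale
import Pool.Agent.Helper80.TL.Small
import Pool.Agent.Helper37.TL.Om
import Pool.Agent.Helper16.TL.Glue

set_option autoImplicit false

/-!
# The twist law with an arbitrary power
-/

namespace Pool.Agent.Helper16.TL

open Finset Pool.Agent.Helper70.TW Pool.Agent.Helper28.Koblitz

/-- Sums of negative powers. -/
theorem sum_pow_le (K X0 : ℕ) (hX0 : 1 ≤ X0) (I : Finset ℕ) (hI : ∀ x ∈ I, X0 ≤ x) :
    ∑ x ∈ I, 1 / (x : ℝ) ^ (K + 2) ≤ 6 / (X0 : ℝ) ^ K := by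
  have hX0' : (1 : ℝ) ≤ X0 := by exact_mod_cast hX0
  have h1 : ∀ x ∈ I, 1 / (x : ℝ) ^ (K + 2) ≤ 1 / (X0 : ℝ) ^ K * (1 / ((x : ℝ) * Real.sqrt x)) := by
    intro x hx
    have hx1 : (X0 : ℝ) ≤ x := by exact_mod_cast hI x hx
    have hx1' : (1 : ℝ) ≤ x := hX0'.trans hx1
    have hs : Real.sqrt x ≤ x := by
      rw [Real.sqrt_le_left (by linarith)]
      nlinarith
    have hs0 : 0 < Real.sqrt x := Real.sqrt_pos.2 (by linarith)
    rw [← one_div_mul_one_div_rev, mul_comm (1 / Real.sqrt (x : ℝ))]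
    calc 1 / (x : ℝ) ^ (K + 2) = 1 / (x : ℝ) ^ K * (1 / (x : ℝ) * (1 / (x : ℝ))) := by
          rw [pow_add]; field_simp
      _ ≤ 1 / (X0 : ℝ) ^ K * (1 / (x : ℝ) * (1 / Real.sqrt x)) := by
          gcongr
  calc ∑ x ∈ I, 1 / (x : ℝ) ^ (K + 2)
      ≤ ∑ x ∈ I, 1 / (X0 : ℝ) ^ K * (1 / ((x : ℝ) * Real.sqrt x)) := Finset.sum_le_sum h1
    _ = 1 / (X0 : ℝ) ^ K * ∑ x ∈ I, 1 / ((x : ℝ) * Real.sqrt x) := by rw [Finset.mul_sum]
    _ ≤ 1 / (X0 : ℝ) ^ K * (6 / Real.sqrt X0) := by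
        have := Pool.Agent.Helper80.TL.sum_tele X0 hX0 I hI
        gcongr
    _ ≤ 1 / (X0 : ℝ) ^ K * (6 / 1) := by
        have : (1 : ℝ) ≤ Real.sqrt X0 := Real.one_le_sqrt.2 hX0'
        gcongr
    _ = 6 / (X0 : ℝ) ^ K := by ring

/-- The small range. -/
theorem small_gen (A K : ℕ) : ∃ C : ℝ, 0 < C ∧ ∀ (P : ℕ → Finset ℕ),
    (∀ x, ∀ p ∈ P x, p.Prime ∧ Odd p ∧ p ≤ x) → ∀ (c : ℕ → ℕ → ℝ), (∀ t p, |c t p| ≤ 1) →
    ∀ (Y X0 : ℕ), 1 ≤ X0 → 1 ≤ Y → ∀ DD : Finset ℤ, (∀ D ∈ DD, D.natAbs ≤ Y ∧ ∃ x t : ℕ,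
      X0 ≤ x ∧ 2 ≤ x ∧ x ^ (3 * K + 12) ≤ Y ∧ t ≤ 2 * x + 2 ∧
      (x : ℝ) / (Real.log x) ^ A ≤ |∑ p ∈ P x, c t p * ((psi D p : ℤ) : ℝ)|) →
    (DD.card : ℝ) ≤ C * (Y / (X0 : ℝ) ^ K) := by
  classical
  set k : ℕ := K + 4 with hk
  obtain ⟨K1, hK10, hK1⟩ := Pool.Agent.Helper80.TL.log_pow_le (2 * k * A)
  refine ⟨24 * (K1 * (3 * (k : ℝ) ^ (2 * k) + 1)), by positivity,
    fun P hP c hc Y X0 hX0 hY DD hDD => ?_⟩
  have hYR : (1 : ℝ) ≤ Y := by exact_mod_cast hY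
  obtain ⟨I, hI⟩ : ∃ I : Finset ℕ,
    I = (range (Y + 1)).filter (fun x => X0 ≤ x ∧ 2 ≤ x ∧ x ^ (3 * K + 12) ≤ Y) := ⟨_, rfl⟩
  obtain ⟨E, hE⟩ : ∃ E : ℕ → ℕ → Finset ℤ, E = fun (x t : ℕ) =>
    DD.filter (fun D => (x : ℝ) / (Real.log x) ^ A ≤
      |∑ p ∈ P x, c t p * ((psi D p : ℤ) : ℝ)|) := ⟨_, rfl⟩
  have hcov : DD ⊆ I.biUnion fun x => (range (2 * x + 3)).biUnion fun t => E x t := by
    intro D hD
    obtain ⟨_, x, t, h1, h2, h3, h4, h5⟩ := hDD D hD
    rw [mem_biUnion]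
    refine ⟨x, ?_, ?_⟩
    · rw [hI, mem_filter, mem_range]
      have : x ≤ x ^ (3 * K + 12) := Nat.le_self_pow (by omega) x
      exact ⟨by omega, h1, h2, h3⟩
    · rw [mem_biUnion]
      refine ⟨t, by rw [mem_range]; omega, ?_⟩
      rw [hE]
      exact mem_filter.2 ⟨hD, h5⟩
  have hcard : (DD.card : ℝ) ≤ ∑ x ∈ I, ∑ t ∈ range (2 * x + 3), ((E x t).card : ℝ) := by
    have h1 : DD.card ≤ ∑ x ∈ I, ∑ t ∈ range (2 * x + 3), (E x t).card := by
      refine (card_le_card hcov).trans (card_biUnion_le.trans ?_)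
      exact sum_le_sum fun x _ => card_biUnion_le
    exact_mod_cast h1
  -- one term
  have hone : ∀ x ∈ I, ∀ t, ((E x t).card : ℝ) ≤
      K1 * (3 * (k : ℝ) ^ (2 * k) + 1) * Y * (1 / (x : ℝ) ^ (K + 3)) := by
    intro x hx t
    rw [hI, mem_filter] at hx
    have hx2 : (2 : ℝ) ≤ x := by exact_mod_cast hx.2.2.1
    have hx0 : (0 : ℝ) < x := by linarith
    have hl0 : 0 < Real.log x := Real.log_pos (by linarith)
    have h1 := Pool.Agent.Helper80.TL.count_small k x Y (P x) (hP x) (c t) (fun p _ => hc t p)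
      (E x t) (fun D hD => by rw [hE] at hD; exact (hDD D (mem_filter.1 hD).1).1)
      (x / (Real.log x) ^ A) (by positivity)
      (fun D hD => by rw [hE] at hD; exact (mem_filter.1 hD).2)
    have hPx : ((P x).card : ℝ) ≤ x := by
      have h2 : P x ⊆ Ioc 0 x := by
        intro p hp
        have := hP x p hp
        rw [mem_Ioc]
        exact ⟨this.1.pos, this.2.2⟩
      have h3 := card_le_card h2
      rw [Nat.card_Ioc] at h3
      exact_mod_cast h3
    have hYx : (x : ℝ) ^ (3 * K + 12) ≤ Y := by exact_mod_cast hx.2.2.2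
    have h2 : ((E x t).card : ℝ) * (x / (Real.log x) ^ A) ^ (2 * k) ≤
        (k : ℝ) ^ (2 * k) * x ^ k * (3 * Y) + x ^ (2 * k) * x ^ (2 * k) := by
      have h3 : ((P x).card : ℝ) ^ k ≤ x ^ k := pow_le_pow_left₀ (by positivity) hPx k
      have h4 : ((P x).card : ℝ) ^ (2 * k) ≤ x ^ (2 * k) :=
        pow_le_pow_left₀ (by positivity) hPx (2 * k)
      calc ((E x t).card : ℝ) * (x / (Real.log x) ^ A) ^ (2 * k) ≤ _ := h1
        _ ≤ (k : ℝ) ^ (2 * k) * x ^ k * (3 * Y) + x ^ (2 * k) * x ^ (2 * k) := by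
            gcongr
            linarith
    have h3 : (x / (Real.log x) ^ A) ^ (2 * k) = (x : ℝ) ^ (2 * k) / (Real.log x) ^ (2 * k * A) := by
      rw [div_pow, ← pow_mul]
      congr 2
      ring
    rw [h3] at h2
    have hL : (Real.log x) ^ (2 * k * A) ≤ K1 * x := by
      have hs : Real.sqrt x ≤ x := by
        rw [Real.sqrt_le_left (by linarith)]
        nlinarith
      calc (Real.log x) ^ (2 * k * A) ≤ K1 * Real.sqrt x := hK1 x (by linarith)
        _ ≤ K1 * x := by gcongr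
    have h4 : (x : ℝ) ^ (2 * k) / (K1 * x) ≤ (x : ℝ) ^ (2 * k) / (Real.log x) ^ (2 * k * A) := by
      gcongr
    have h5 : ((E x t).card : ℝ) * ((x : ℝ) ^ (2 * k) / (K1 * x)) ≤
        (k : ℝ) ^ (2 * k) * x ^ k * (3 * Y) + x ^ (2 * k) * x ^ (2 * k) :=
      le_trans (by gcongr) h2
    have h6 : (x : ℝ) ^ (2 * k) * x ^ (2 * k) ≤ Y * x ^ k := by
      have e1 : (x : ℝ) ^ (2 * k) * x ^ (2 * k) = x ^ (3 * K + 12) * x ^ k := by
        rw [← pow_add, ← pow_add]; congr 1; omega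
      rw [e1]
      gcongr
    have h7 : ((E x t).card : ℝ) * ((x : ℝ) ^ (2 * k) / (K1 * x)) ≤
        (3 * (k : ℝ) ^ (2 * k) + 1) * Y * x ^ k := by
      calc _ ≤ _ := h5
        _ ≤ (k : ℝ) ^ (2 * k) * x ^ k * (3 * Y) + Y * x ^ k := by linarith
        _ = (3 * (k : ℝ) ^ (2 * k) + 1) * Y * x ^ k := by ring
    have h8 : (x : ℝ) ^ (2 * k) / (K1 * x) = x ^ (K + 3) * x ^ k / K1 := by
      have e2 : (x : ℝ) ^ (2 * k) = x ^ (K + 3) * x ^ k * x := by
        rw [← pow_add, ← pow_succ]; congr 1; omega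
      rw [e2]
      field_simp
    rw [h8] at h7
    have h9 : (0 : ℝ) < x ^ (K + 3) := by positivity
    have h10 : (0 : ℝ) < x ^ k := by positivity
    have h11 : ((E x t).card : ℝ) * (x ^ (K + 3) / K1) * x ^ k ≤
        (3 * (k : ℝ) ^ (2 * k) + 1) * Y * x ^ k := by
      calc ((E x t).card : ℝ) * (x ^ (K + 3) / K1) * x ^ k =
          ((E x t).card : ℝ) * (x ^ (K + 3) * x ^ k / K1) := by ring
        _ ≤ _ := h7
    have h12 := le_of_mul_le_mul_right h11 h10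
    rw [mul_one_div, le_div_iff₀ h9]
    have h13 : ((E x t).card : ℝ) * x ^ (K + 3) = K1 * (((E x t).card : ℝ) * (x ^ (K + 3) / K1)) := by
      field_simp
    rw [h13]
    calc K1 * (((E x t).card : ℝ) * (x ^ (K + 3) / K1)) ≤
        K1 * ((3 * (k : ℝ) ^ (2 * k) + 1) * Y) := by gcongr
      _ = K1 * (3 * (k : ℝ) ^ (2 * k) + 1) * Y := by ring
  have htx : ∀ x ∈ I, ∑ t ∈ range (2 * x + 3), ((E x t).card : ℝ) ≤
      4 * (K1 * (3 * (k : ℝ) ^ (2 * k) + 1) * Y) * (1 / (x : ℝ) ^ (K + 2)) := by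
    intro x hx
    have hx' := hx
    rw [hI, mem_filter] at hx'
    have hx2 : (2 : ℝ) ≤ x := by exact_mod_cast hx'.2.2.1
    have hx0 : (0 : ℝ) < x := by linarith
    calc ∑ t ∈ range (2 * x + 3), ((E x t).card : ℝ)
        ≤ ∑ t ∈ range (2 * x + 3), K1 * (3 * (k : ℝ) ^ (2 * k) + 1) * Y * (1 / (x : ℝ) ^ (K + 3)) :=
          Finset.sum_le_sum fun t _ => hone x hx t
      _ = (2 * (x : ℝ) + 3) * (K1 * (3 * (k : ℝ) ^ (2 * k) + 1) * Y * (1 / (x : ℝ) ^ (K + 3))) := by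
          rw [Finset.sum_const, card_range, nsmul_eq_mul]
          push_cast
          ring
      _ ≤ (4 * (x : ℝ)) * (K1 * (3 * (k : ℝ) ^ (2 * k) + 1) * Y * (1 / (x : ℝ) ^ (K + 3))) := by
          gcongr
          linarith
      _ = 4 * (K1 * (3 * (k : ℝ) ^ (2 * k) + 1) * Y) * (1 / (x : ℝ) ^ (K + 2)) := by
          rw [pow_succ (x : ℝ) (K + 2)]
          field_simp
  have hIX : ∀ x ∈ I, X0 ≤ x := by
    intro x hx
    rw [hI, mem_filter] at hx
    exact hx.2.1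
  calc (DD.card : ℝ) ≤ _ := hcard
    _ ≤ ∑ x ∈ I, 4 * (K1 * (3 * (k : ℝ) ^ (2 * k) + 1) * Y) * (1 / (x : ℝ) ^ (K + 2)) :=
        Finset.sum_le_sum htx
    _ = 4 * (K1 * (3 * (k : ℝ) ^ (2 * k) + 1) * Y) * ∑ x ∈ I, (1 / (x : ℝ) ^ (K + 2)) := by
        rw [Finset.mul_sum]
    _ ≤ 4 * (K1 * (3 * (k : ℝ) ^ (2 * k) + 1) * Y) * (6 / (X0 : ℝ) ^ K) := by
        have := sum_pow_le K X0 hX0 I hIX
        gcongr
    _ = 24 * (K1 * (3 * (k : ℝ) ^ (2 * k) + 1)) * (Y / (X0 : ℝ) ^ K) := by ring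

/-- The exponential moment of the number of prime divisors in a set. -/
theorem moment_div (x Y : ℕ) (P : Finset ℕ) (hP : ∀ p ∈ P, p.Prime ∧ p ≤ x) :
    ∑ D ∈ (Icc (-(Y : ℤ)) Y).filter (fun D => D ≠ 0),
      (2 : ℝ) ^ (P.filter (fun p : ℕ => (p : ℤ) ∣ D)).card ≤ 2 * Y * (x + 1) := by
  classical
  have h1 : ∀ D : ℤ, (2 : ℝ) ^ (P.filter (fun p : ℕ => (p : ℤ) ∣ D)).card =
      ∑ T ∈ P.powerset, if ∀ p ∈ T, ((p : ℕ) : ℤ) ∣ D then (1 : ℝ) else 0 := by
    intro D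
    rw [← Finset.sum_filter, Finset.sum_const, nsmul_eq_mul, mul_one]
    have h2 : P.powerset.filter (fun T => ∀ p ∈ T, ((p : ℕ) : ℤ) ∣ D) =
        (P.filter (fun p : ℕ => (p : ℤ) ∣ D)).powerset := by
      ext T
      rw [mem_filter, mem_powerset, mem_powerset]
      constructor
      · rintro ⟨h1, h2⟩ p hp
        exact mem_filter.2 ⟨h1 hp, h2 p hp⟩
      · intro h
        exact ⟨fun p hp => (mem_filter.1 (h hp)).1, fun p hp => (mem_filter.1 (h hp)).2⟩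
    rw [h2, card_powerset]
    push_cast
    rfl
  simp only [h1]
  rw [Finset.sum_comm]
  have h2 : ∀ T ∈ P.powerset, ∑ D ∈ (Icc (-(Y : ℤ)) Y).filter (fun D => D ≠ 0),
      (if ∀ p ∈ T, ((p : ℕ) : ℤ) ∣ D then (1 : ℝ) else 0) ≤ 2 * Y * ∏ p ∈ T, (1 / (p : ℝ)) := by
    intro T hT
    rw [← Finset.sum_filter, Finset.sum_const, nsmul_eq_mul, mul_one, Finset.filter_filter]
    have h3 := Pool.Agent.Helper37.TL.card_dvd_le Y (∏ p ∈ T, p)
    have h4 : (((Icc (-(Y : ℤ)) Y).filter (fun D => D ≠ 0 ∧ ∀ p ∈ T, ((p : ℕ) : ℤ) ∣ D)).card : ℝ) ≤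
        2 * (Y / ((∏ p ∈ T, p : ℕ) : ℝ)) := by
      have h5 : ((Icc (-(Y : ℤ)) Y).filter (fun D => D ≠ 0 ∧ ∀ p ∈ T, ((p : ℕ) : ℤ) ∣ D)).card ≤
          2 * (Y / (∏ p ∈ T, p)) := by
        refine (Finset.card_le_card ?_).trans h3
        intro D hD
        obtain ⟨h6, h7, h8⟩ := mem_filter.1 hD
        refine mem_filter.2 ⟨h6, h7, ?_⟩
        rw [Int.natCast_dvd]
        refine Finset.prod_primes_dvd _ ?_ ?_
        · intro p hp
          exact (hP p ((mem_powerset.1 hT) hp)).1.prime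
        · intro p hp
          exact Int.natCast_dvd.1 (h8 p hp)
      calc _ ≤ ((2 * (Y / (∏ p ∈ T, p)) : ℕ) : ℝ) := by exact_mod_cast h5
        _ ≤ 2 * (Y / ((∏ p ∈ T, p : ℕ) : ℝ)) := by
            push_cast
            have := Nat.cast_div_le (m := Y) (n := ∏ p ∈ T, p) (α := ℝ)
            push_cast at this
            linarith
    refine h4.trans (le_of_eq ?_)
    push_cast
    rw [Finset.prod_div_distrib, Finset.prod_const_one]
    ring
  calc ∑ T ∈ P.powerset, ∑ D ∈ (Icc (-(Y : ℤ)) Y).filter (fun D => D ≠ 0),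
      (if ∀ p ∈ T, ((p : ℕ) : ℤ) ∣ D then (1 : ℝ) else 0)
      ≤ ∑ T ∈ P.powerset, 2 * Y * ∏ p ∈ T, (1 / (p : ℝ)) := Finset.sum_le_sum h2
    _ = 2 * Y * ∏ p ∈ P, (1 + 1 / (p : ℝ)) := by
        rw [← Finset.mul_sum, Finset.prod_one_add]
    _ ≤ 2 * Y * (x + 1) := by
        have h3 : ∏ p ∈ P, (1 + 1 / (p : ℝ)) ≤ ∏ n ∈ Finset.Icc 1 x, (1 + 1 / (n : ℝ)) := by
          refine Finset.prod_le_prod_of_subset_of_one_le (fun p hp =>
            mem_Icc.2 ⟨(hP p hp).1.pos, (hP p hp).2⟩) (fun p _ => by positivity)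
            (fun n _ _ => ?_)
          have : (0 : ℝ) ≤ 1 / (n : ℝ) := by positivity
          linarith
        have h4 : ∀ y : ℕ, ∏ n ∈ Finset.Icc 1 y, (1 + 1 / (n : ℝ)) = y + 1 := by
          intro y
          induction y with
          | zero => simp
          | succ y ih =>
            rw [Finset.prod_Icc_succ_top (by omega), ih]
            push_cast
            field_simp
            try ring
        rw [h4] at h3
        gcongr

theorem pow_le_two_pow (j : ℕ) : ∃ C : ℝ, 0 < C ∧ ∀ n : ℕ, (n : ℝ) ^ j ≤ C * 2 ^ n := by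
  refine ⟨(j.factorial : ℝ) / (Real.log 2) ^ j, by
    have := Real.log_pos (by norm_num : (1 : ℝ) < 2)
    positivity, fun n => ?_⟩
  have hl : 0 < Real.log 2 := Real.log_pos (by norm_num : (1 : ℝ) < 2)
  have h1 := Real.pow_div_factorial_le_exp (x := (n : ℝ) * Real.log 2) (by positivity) j
  have h2 : Real.exp ((n : ℝ) * Real.log 2) = 2 ^ n := by
    rw [mul_comm, Real.exp_mul, Real.exp_log (by norm_num), Real.rpow_natCast]
  rw [h2, mul_pow, div_le_iff₀ (by positivity)] at h1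
  rw [div_mul_eq_mul_div, le_div_iff₀ (by positivity)]
  linarith

/-- Few discriminants with many small prime divisors. -/
theorem div_gen (A K : ℕ) : ∃ C : ℝ, 0 < C ∧ ∀ (P : ℕ → Finset ℕ),
    (∀ x, ∀ p ∈ P x, p.Prime ∧ p ≤ x) → ∀ (Y X0 : ℕ), 1 ≤ X0 → ∀ DD : Finset ℤ,
    (∀ D ∈ DD, D ≠ 0 ∧ D.natAbs ≤ Y ∧ ∃ x : ℕ, X0 ≤ x ∧ 2 ≤ x ∧
      (x : ℝ) / (Real.log x) ^ A ≤ (((P x).filter (fun p : ℕ => (p : ℤ) ∣ D)).card : ℝ)) →
    (DD.card : ℝ) ≤ C * (Y / (X0 : ℝ) ^ K) := by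
  classical
  obtain ⟨K1, hK10, hK1⟩ := Pool.Agent.Helper80.TL.log_pow_le A
  obtain ⟨C1, hC10, hC1⟩ := pow_le_two_pow (2 * (K + 3))
  refine ⟨6 * (4 * (K1 ^ (2 * (K + 3)) * C1)), by positivity, fun P hP Y X0 hX0 DD hDD => ?_⟩
  have hch : ∀ D : ℤ, ∃ x : ℕ, D ∈ DD → (X0 ≤ x ∧ 2 ≤ x ∧
      (x : ℝ) / (Real.log x) ^ A ≤ (((P x).filter (fun p : ℕ => (p : ℤ) ∣ D)).card : ℝ)) := by
    intro D
    by_cases hD : D ∈ DD
    · obtain ⟨-, -, x, hx⟩ := hDD D hD
      exact ⟨x, fun _ => hx⟩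
    · exact ⟨0, fun h => absurd h hD⟩
  choose ξ hξ using hch
  have h1 : (DD.card : ℝ) = ∑ x ∈ DD.image ξ, ((DD.filter (fun D => ξ D = x)).card : ℝ) := by
    rw [Finset.card_eq_sum_card_image ξ DD]
    push_cast
    rfl
  have hmem : ∀ x ∈ DD.image ξ, X0 ≤ x ∧ 2 ≤ x := by
    intro x hx
    obtain ⟨D, hD, rfl⟩ := mem_image.1 hx
    exact ⟨(hξ D hD).1, (hξ D hD).2.1⟩
  have hone : ∀ x ∈ DD.image ξ, ((DD.filter (fun D => ξ D = x)).card : ℝ) ≤
      4 * (K1 ^ (2 * (K + 3)) * C1) * Y * (1 / (x : ℝ) ^ (K + 2)) := by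
    intro x hx
    obtain ⟨hxX, hx2⟩ := hmem x hx
    have hx2' : (2 : ℝ) ≤ x := by exact_mod_cast hx2
    have hx0 : (0 : ℝ) < x := by linarith
    have hlog : 0 < Real.log x := Real.log_pos (by linarith)
    set w : ℝ := (x : ℝ) / (Real.log x) ^ A with hw
    set n : ℕ := ⌈w⌉₊ with hn
    have hwn : w ≤ n := Nat.le_ceil w
    have hmom := moment_div x Y (P x) (hP x)
    have h2 : ((DD.filter (fun D => ξ D = x)).card : ℝ) * 2 ^ n ≤ 2 * Y * (x + 1) := by
      calc ((DD.filter (fun D => ξ D = x)).card : ℝ) * 2 ^ n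
          = ∑ D ∈ DD.filter (fun D => ξ D = x), (2 : ℝ) ^ n := by
            rw [Finset.sum_const, nsmul_eq_mul]
        _ ≤ ∑ D ∈ DD.filter (fun D => ξ D = x),
            (2 : ℝ) ^ ((P x).filter (fun p : ℕ => (p : ℤ) ∣ D)).card := by
            refine Finset.sum_le_sum fun D hD => ?_
            obtain ⟨hD1, hD2⟩ := mem_filter.1 hD
            have h3 := (hξ D hD1).2.2
            rw [hD2] at h3
            refine pow_le_pow_right₀ (by norm_num) ?_
            exact Nat.ceil_le.2 h3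
        _ ≤ ∑ D ∈ (Icc (-(Y : ℤ)) Y).filter (fun D => D ≠ 0),
            (2 : ℝ) ^ ((P x).filter (fun p : ℕ => (p : ℤ) ∣ D)).card := by
            refine Finset.sum_le_sum_of_subset_of_nonneg ?_ (fun D _ _ => by positivity)
            intro D hD
            have h4 := hDD D (mem_filter.1 hD).1
            rw [mem_filter, mem_Icc]
            exact ⟨by omega, h4.1⟩
        _ ≤ 2 * Y * (x + 1) := hmom
    have hsx : Real.sqrt x ≤ K1 * n := by
      have h3 := hK1 x (by linarith)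
      have h4 : Real.sqrt x * (Real.log x) ^ A ≤ K1 * x := by
        calc Real.sqrt x * (Real.log x) ^ A ≤ Real.sqrt x * (K1 * Real.sqrt x) := by gcongr
          _ = K1 * (Real.sqrt x * Real.sqrt x) := by ring
          _ = K1 * x := by rw [Real.mul_self_sqrt hx0.le]
      calc Real.sqrt x ≤ K1 * x / (Real.log x) ^ A := by
            rw [le_div_iff₀ (by positivity)]
            exact h4
        _ = K1 * w := by rw [hw]; ring
        _ ≤ K1 * n := by gcongr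
    have h3 : (x : ℝ) ^ (K + 3) ≤ K1 ^ (2 * (K + 3)) * C1 * 2 ^ n := by
      calc (x : ℝ) ^ (K + 3) = (Real.sqrt x) ^ (2 * (K + 3)) := by
            rw [pow_mul, Real.sq_sqrt hx0.le]
        _ ≤ (K1 * n) ^ (2 * (K + 3)) := by
            have := Real.sqrt_nonneg (x : ℝ)
            gcongr
        _ = K1 ^ (2 * (K + 3)) * (n : ℝ) ^ (2 * (K + 3)) := by rw [mul_pow]
        _ ≤ K1 ^ (2 * (K + 3)) * (C1 * 2 ^ n) := by
            have := hC1 n
            gcongr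
        _ = K1 ^ (2 * (K + 3)) * C1 * 2 ^ n := by ring
    rw [mul_one_div, le_div_iff₀ (by positivity)]
    have h4 : ((DD.filter (fun D => ξ D = x)).card : ℝ) * (x : ℝ) ^ (K + 3) ≤
        K1 ^ (2 * (K + 3)) * C1 * (2 * Y * (x + 1)) := by
      calc ((DD.filter (fun D => ξ D = x)).card : ℝ) * (x : ℝ) ^ (K + 3) ≤
          ((DD.filter (fun D => ξ D = x)).card : ℝ) * (K1 ^ (2 * (K + 3)) * C1 * 2 ^ n) := by gcongr
        _ = K1 ^ (2 * (K + 3)) * C1 * (((DD.filter (fun D => ξ D = x)).card : ℝ) * 2 ^ n) := by ring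
        _ ≤ K1 ^ (2 * (K + 3)) * C1 * (2 * Y * (x + 1)) := by gcongr
    have h5 : K1 ^ (2 * (K + 3)) * C1 * (2 * Y * (x + 1)) ≤
        (4 * (K1 ^ (2 * (K + 3)) * C1) * Y) * x := by
      have h6 : (0 : ℝ) ≤ K1 ^ (2 * (K + 3)) * C1 * Y := by positivity
      nlinarith
    have h6 : ((DD.filter (fun D => ξ D = x)).card : ℝ) * (x : ℝ) ^ (K + 2) * x ≤
        (4 * (K1 ^ (2 * (K + 3)) * C1) * Y) * x := by
      calc _ = ((DD.filter (fun D => ξ D = x)).card : ℝ) * (x : ℝ) ^ (K + 3) := by ring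
        _ ≤ _ := h4.trans h5
    exact le_of_mul_le_mul_right h6 hx0
  rw [h1]
  calc ∑ x ∈ DD.image ξ, ((DD.filter (fun D => ξ D = x)).card : ℝ)
      ≤ ∑ x ∈ DD.image ξ, 4 * (K1 ^ (2 * (K + 3)) * C1) * Y * (1 / (x : ℝ) ^ (K + 2)) :=
        Finset.sum_le_sum hone
    _ = 4 * (K1 ^ (2 * (K + 3)) * C1) * Y * ∑ x ∈ DD.image ξ, (1 / (x : ℝ) ^ (K + 2)) := by
        rw [Finset.mul_sum]
    _ ≤ 4 * (K1 ^ (2 * (K + 3)) * C1) * Y * (6 / (X0 : ℝ) ^ K) := by
        have := sum_pow_le K X0 hX0 (DD.image ξ) (fun x hx => (hmem x hx).1)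
        gcongr
    _ = 6 * (4 * (K1 ^ (2 * (K + 3)) * C1)) * (Y / (X0 : ℝ) ^ K) := by ring

/-- One value of `x` and one sequence of coefficients. -/
theorem one_point_gen (A N : ℕ) : ∃ (X : ℕ) (K : ℝ), 2 ≤ X ∧ 0 < K ∧ ∀ (x Y : ℕ) (P : Finset ℕ),
    X ≤ x → Y ≤ (2 * x) ^ N → (∀ p ∈ P, p.Prime ∧ Odd p ∧ p ≤ x) → ∀ c : ℕ → ℝ,
    (∀ p ∈ P, |c p| ≤ 1) → ∀ DD : Finset ℤ, (∀ D ∈ DD, Squarefree D ∧ D.natAbs ≤ Y) →
    (∀ D ∈ DD, (x : ℝ) / (2 ^ (A + 1) * (Real.log x) ^ A) ≤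
      |∑ p ∈ P, c p * ((psi D p : ℤ) : ℝ)|) →
    (DD.card : ℝ) ≤ K * (Real.log x) ^ (2 * (2 * N + 1) * A) * (∑ p ∈ P, c p ^ 2) / x := by
  set k : ℕ := 2 * N + 1 with hk
  set κ : ℝ := ((k : ℕ) : ℝ) ^ k with hκ
  have hκ0 : 0 < κ := by positivity
  set W : ℝ := 2 ^ (2 * k * (A + 1)) with hW
  have hW0 : 0 < W := by positivity
  clear_value κ W
  obtain ⟨X, hX⟩ := exists_threshold (2 * k * A) (κ * 2 ^ (2 * N + 2) * 2 * W)
  refine ⟨X + 2, 4 * κ * W, by omega, by positivity, ?_⟩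
  intro x Y P hXx hY hP c hc DD hDD hV
  have hx2 : (2 : ℝ) ≤ x := by exact_mod_cast (by omega : 2 ≤ x)
  have hx0 : (0 : ℝ) < x := by linarith
  have hlog : 0 < Real.log x := Real.log_pos (by linarith)
  set u : ℝ := (Real.log x) ^ (2 * k * A) with hu
  have hu0 : 0 < u := by positivity
  set s : ℝ := ∑ p ∈ P, c p ^ 2 with hs
  have hs0 : 0 ≤ s := Finset.sum_nonneg fun p _ => sq_nonneg _
  have hPx : P.card ≤ x := by
    calc P.card ≤ (Finset.Icc 1 x).card := Finset.card_le_card (fun p hp =>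
          mem_Icc.2 ⟨(hP p hp).1.pos, (hP p hp).2.2⟩)
      _ = x := by simp
  have hsx : s ≤ x := by
    calc s ≤ ∑ p ∈ P, (1 : ℝ) := by
          refine Finset.sum_le_sum fun p hp => ?_
          have := hc p hp
          rw [← sq_abs]
          have h0 := abs_nonneg (c p)
          nlinarith
      _ = (P.card : ℝ) := by simp
      _ ≤ x := by exact_mod_cast hPx
  have key := Pool.Agent.Helper37.TL.count_le_sq k x Y P hP c DD hDD
    ((x : ℝ) / (2 ^ (A + 1) * (Real.log x) ^ A)) (by positivity) hV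
  rw [← hs, ← hκ] at key
  have hVpow : ((x : ℝ) / (2 ^ (A + 1) * (Real.log x) ^ A)) ^ (2 * k) =
      (x : ℝ) ^ (2 * k) / (W * u) := by
    rw [div_pow, mul_pow, ← pow_mul, ← pow_mul, hW, hu]
    congr 2
    · congr 1; ring
    · congr 1; ring
  rw [hVpow] at key
  have hth := hX x (by omega)
  rw [← hu] at hth
  -- the second term
  have hY2 : (Y : ℝ) ^ 2 ≤ 2 ^ (2 * N) * (x : ℝ) ^ (2 * N) := by
    have h1 : (Y : ℝ) ≤ (2 * (x : ℝ)) ^ N := by exact_mod_cast hY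
    calc (Y : ℝ) ^ 2 ≤ ((2 * (x : ℝ)) ^ N) ^ 2 := by gcongr
      _ = 2 ^ (2 * N) * (x : ℝ) ^ (2 * N) := by
        rw [← pow_mul, mul_pow, mul_comm N 2]
  have hsec : κ * s ^ k * (4 * (Y : ℝ) ^ 2) ≤ (x : ℝ) ^ (2 * k) / (2 * (W * u)) := by
    rw [le_div_iff₀ (by positivity)]
    calc κ * s ^ k * (4 * (Y : ℝ) ^ 2) * (2 * (W * u))
        ≤ κ * (x : ℝ) ^ k * (4 * (2 ^ (2 * N) * (x : ℝ) ^ (2 * N))) * (2 * (W * u)) := by gcongr
      _ = (κ * 2 ^ (2 * N + 2) * 2 * W * u) * ((x : ℝ) ^ k * (x : ℝ) ^ (2 * N)) := by ring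
      _ ≤ (x : ℝ) * ((x : ℝ) ^ k * (x : ℝ) ^ (2 * N)) := by gcongr
      _ = (x : ℝ) ^ (2 * k) := by
        rw [← pow_add, ← pow_succ']; congr 1; omega
  have hN0 : (0 : ℝ) ≤ DD.card := Nat.cast_nonneg _
  have h1 : (DD.card : ℝ) * ((x : ℝ) ^ (2 * k) / (2 * (W * u))) ≤
      κ * s ^ k * ((x : ℝ) ^ k + 1) := by
    have h2 : κ * s ^ k * ((x : ℝ) ^ k + 1 + 4 * (Y : ℝ) ^ 2 * DD.card) =
        κ * s ^ k * ((x : ℝ) ^ k + 1) + κ * s ^ k * (4 * (Y : ℝ) ^ 2) * DD.card := by ring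
    have h3 : κ * s ^ k * (4 * (Y : ℝ) ^ 2) * DD.card ≤
        (x : ℝ) ^ (2 * k) / (2 * (W * u)) * DD.card := by gcongr
    have h4 : (x : ℝ) ^ (2 * k) / (W * u) = 2 * ((x : ℝ) ^ (2 * k) / (2 * (W * u))) := by
      field_simp
    rw [h2, h4] at key
    nlinarith
  have hk1 : k = 2 * N + 1 := hk
  have h2 : κ * s ^ k * ((x : ℝ) ^ k + 1) ≤ κ * s * 2 * (x : ℝ) ^ (2 * N + k) := by
    have h3 : s ^ k ≤ s * (x : ℝ) ^ (2 * N) := by
      calc s ^ k = s * s ^ (2 * N) := by rw [hk1, pow_succ']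
        _ ≤ s * (x : ℝ) ^ (2 * N) := by gcongr
    have h4 : (1 : ℝ) ≤ (x : ℝ) ^ k := one_le_pow₀ (by linarith)
    calc κ * s ^ k * ((x : ℝ) ^ k + 1) ≤
          κ * (s * (x : ℝ) ^ (2 * N)) * ((x : ℝ) ^ k + (x : ℝ) ^ k) := by
          gcongr
      _ = κ * s * 2 * (x : ℝ) ^ (2 * N + k) := by rw [pow_add]; ring
  have h3 := h1.trans h2
  rw [le_div_iff₀ hx0]
  have h4 : (DD.card : ℝ) * ((x : ℝ) ^ (2 * k) / (2 * (W * u))) =
      ((DD.card : ℝ) * x) * ((x : ℝ) ^ (2 * N + k) / (2 * (W * u))) := by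
    have e1 : (x : ℝ) ^ (2 * k) = x * (x : ℝ) ^ (2 * N + k) := by
      rw [← pow_succ']; congr 1; omega
    rw [e1]
    ring
  rw [h4] at h3
  have h5 : (0 : ℝ) < (x : ℝ) ^ (2 * N + k) / (2 * (W * u)) := by positivity
  have h6 : κ * s * 2 * (x : ℝ) ^ (2 * N + k) =
      (4 * κ * W * u * s) * ((x : ℝ) ^ (2 * N + k) / (2 * (W * u))) := by
    field_simp
    try ring
  rw [h6] at h3
  exact le_of_mul_le_mul_right h3 h5

/-- The union over all `t` for one value of `x`. -/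
theorem all_t_gen (A N : ℕ) : ∃ (X : ℕ) (K : ℝ), 2 ≤ X ∧ 0 < K ∧ ∀ (x Y : ℕ) (P : Finset ℕ),
    X ≤ x → Y ≤ (2 * x) ^ N → (∀ p ∈ P, p.Prime ∧ Odd p ∧ p ≤ x) → ∀ c : ℕ → ℕ → ℝ,
    (∀ t p, |c t p| ≤ 1) →
    (∀ p ∈ P, ∀ T : Finset ℕ, ∑ t ∈ T, (c t p) ^ 2 ≤ 2 * (Nat.log 2 (2 * p + 2) : ℝ)) →
    ∀ DD : Finset ℤ, (∀ D ∈ DD, Squarefree D ∧ D.natAbs ≤ Y) →
    (∀ D ∈ DD, ∃ t : ℕ, (x : ℝ) / (2 ^ (A + 1) * (Real.log x) ^ A) ≤
      |∑ p ∈ P, c t p * ((psi D p : ℤ) : ℝ)|) →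
    (DD.card : ℝ) ≤ K * (Real.log x) ^ (2 * (2 * N + 1) * A) *
      (2 * (Nat.log 2 (2 * x + 2) : ℝ)) := by
  classical
  obtain ⟨X, K, hX2, hK, H⟩ := one_point_gen A N
  refine ⟨X, K, hX2, hK, ?_⟩
  intro x Y P hXx hY hP c hc hsum DD hDD hV
  have hx2 : (2 : ℝ) ≤ x := by exact_mod_cast (by omega : 2 ≤ x)
  have hx0 : (0 : ℝ) < x := by linarith
  have hlog : 0 < Real.log x := Real.log_pos (by linarith)
  have hV' : ∀ D : ℤ, ∃ t : ℕ, D ∈ DD → (x : ℝ) / (2 ^ (A + 1) * (Real.log x) ^ A) ≤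
      |∑ p ∈ P, c t p * ((psi D p : ℤ) : ℝ)| := by
    intro D
    by_cases hD : D ∈ DD
    · obtain ⟨t, ht⟩ := hV D hD
      exact ⟨t, fun _ => ht⟩
    · exact ⟨0, fun h => absurd h hD⟩
  choose τ hτ using hV'
  have hPx : P.card ≤ x := by
    calc P.card ≤ (Finset.Icc 1 x).card := Finset.card_le_card (fun p hp =>
          mem_Icc.2 ⟨(hP p hp).1.pos, (hP p hp).2.2⟩)
      _ = x := by simp
  set u : ℝ := (Real.log x) ^ (2 * (2 * N + 1) * A) with hu
  have hu0 : 0 < u := by positivity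
  clear_value u
  have h1 : (DD.card : ℝ) = ∑ t ∈ DD.image τ, ((DD.filter (fun D => τ D = t)).card : ℝ) := by
    rw [Finset.card_eq_sum_card_image τ DD]
    push_cast
    rfl
  have h2 : ∀ t ∈ DD.image τ, ((DD.filter (fun D => τ D = t)).card : ℝ) ≤
      K * u * (∑ p ∈ P, c t p ^ 2) / x := by
    intro t _
    rw [hu]
    refine H x Y P hXx hY hP (c t) (fun p _ => hc t p) _ (fun D hD => hDD D (mem_filter.1 hD).1) ?_
    intro D hD
    have h3 := hτ D (mem_filter.1 hD).1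
    rw [(mem_filter.1 hD).2] at h3
    exact h3
  rw [h1]
  calc ∑ t ∈ DD.image τ, ((DD.filter (fun D => τ D = t)).card : ℝ)
      ≤ ∑ t ∈ DD.image τ, K * u * (∑ p ∈ P, c t p ^ 2) / x :=
        Finset.sum_le_sum h2
    _ = K * u * (∑ p ∈ P, ∑ t ∈ DD.image τ, c t p ^ 2) / x := by
        rw [← Finset.sum_div, ← Finset.mul_sum, Finset.sum_comm]
    _ ≤ K * u * (x * (2 * (Nat.log 2 (2 * x + 2) : ℝ))) / x := by
        have h3 : ∑ p ∈ P, ∑ t ∈ DD.image τ, c t p ^ 2 ≤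
            (x : ℝ) * (2 * (Nat.log 2 (2 * x + 2) : ℝ)) := by
          calc ∑ p ∈ P, ∑ t ∈ DD.image τ, c t p ^ 2
              ≤ ∑ p ∈ P, (2 * (Nat.log 2 (2 * x + 2) : ℝ)) := by
                refine Finset.sum_le_sum fun p hp => (hsum p hp _).trans ?_
                have : Nat.log 2 (2 * p + 2) ≤ Nat.log 2 (2 * x + 2) :=
                  Nat.log_mono_right (by have := (hP p hp).2.2; omega)
                have h4 : (Nat.log 2 (2 * p + 2) : ℝ) ≤ (Nat.log 2 (2 * x + 2) : ℝ) := by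
                  exact_mod_cast this
                linarith
            _ = (P.card : ℝ) * (2 * (Nat.log 2 (2 * x + 2) : ℝ)) := by
                rw [Finset.sum_const, nsmul_eq_mul]
            _ ≤ (x : ℝ) * (2 * (Nat.log 2 (2 * x + 2) : ℝ)) := by
                have : (P.card : ℝ) ≤ x := by exact_mod_cast hPx
                gcongr
        gcongr
    _ = K * u * (2 * (Nat.log 2 (2 * x + 2) : ℝ)) := by
        field_simp

/-- The large range. -/
theorem large_gen (A N : ℕ) : ∃ (C : ℝ) (m : ℕ), 0 < C ∧ ∀ (Q : ℕ → Prop) [DecidablePred Q],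
    (∀ p, Q p → p.Prime ∧ Odd p) → ∀ (c : ℕ → ℕ → ℝ), (∀ t p, |c t p| ≤ 1) →
    (∀ p, Q p → ∀ T : Finset ℕ, ∑ t ∈ T, (c t p) ^ 2 ≤ 2 * (Nat.log 2 (2 * p + 2) : ℝ)) →
    ∀ (Y L : ℕ), 1 ≤ L → ∀ DD : Finset ℤ,
    (∀ D ∈ DD, Squarefree D ∧ D.natAbs ≤ Y ∧ ∃ x t : ℕ, 2 ≤ x ∧ Y ≤ x ^ N ∧
      (x : ℝ) ≤ Real.exp L ∧ (x : ℝ) / (Real.log x) ^ A ≤
        |∑ p ∈ (range (x + 1)).filter Q, c t p * ((psi D p : ℤ) : ℝ)|) →
    (DD.card : ℝ) ≤ C * (L : ℝ) ^ m := by
  classical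
  obtain ⟨X1, K, hX1, hK, H⟩ := all_t_gen A N
  obtain ⟨X2, hX2⟩ := exists_threshold A 4
  set X := X1 + X2 with hX
  refine ⟨(2 * (2 * (X : ℝ)) ^ N + 1) + 72 * K, 2 * (2 * N + 1) * A + A + 2, by positivity, ?_⟩
  intro Q _ hQ c hc hsum Y L hL DD hDD
  have hL1 : (1 : ℝ) ≤ L := by exact_mod_cast hL
  by_cases hYX : Y ≤ (2 * X) ^ N
  · -- few discriminants
    have h1 : DD.card ≤ 2 * Y + 1 := by
      calc DD.card ≤ (Finset.Icc (-(Y : ℤ)) Y).card := by
            refine Finset.card_le_card ?_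
            intro D hD
            have := (hDD D hD).2.1
            rw [mem_Icc]
            omega
        _ = 2 * Y + 1 := by
            rw [Int.card_Icc]
            omega
    have h2 : (DD.card : ℝ) ≤ 2 * (2 * (X : ℝ)) ^ N + 1 := by
      have h3 : (DD.card : ℝ) ≤ 2 * (Y : ℝ) + 1 := by exact_mod_cast h1
      have h4 : (Y : ℝ) ≤ (2 * (X : ℝ)) ^ N := by exact_mod_cast hYX
      linarith
    calc (DD.card : ℝ) ≤ ((2 * (2 * (X : ℝ)) ^ N + 1) + 72 * K) * 1 := by linarith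
      _ ≤ ((2 * (2 * (X : ℝ)) ^ N + 1) + 72 * K) * (L : ℝ) ^ (2 * (2 * N + 1) * A + A + 2) := by
          have : (1 : ℝ) ≤ (L : ℝ) ^ (2 * (2 * N + 1) * A + A + 2) := one_le_pow₀ hL1
          gcongr
  · push Not at hYX
    set M : ℕ := 8 * L ^ A with hM
    have hM8 : 8 ≤ M := by
      have : 1 ≤ L ^ A := Nat.one_le_pow _ _ hL
      omega
    have hM8' : (8 : ℝ) ≤ M := by exact_mod_cast hM8
    have hMcast : (M : ℝ) = 8 * (L : ℝ) ^ A := by rw [hM]; push_cast; ring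
    -- the choice of `x`
    have hch : ∀ D : ℤ, ∃ x : ℕ, D ∈ DD → (2 ≤ x ∧ Y ≤ x ^ N ∧
      (x : ℝ) ≤ Real.exp L ∧ ∃ t : ℕ, (x : ℝ) / (Real.log x) ^ A ≤
        |∑ p ∈ (range (x + 1)).filter Q, c t p * ((psi D p : ℤ) : ℝ)|) := by
      intro D
      by_cases hD : D ∈ DD
      · obtain ⟨-, -, x, t, h1, h2, h3, h4⟩ := hDD D hD
        exact ⟨x, fun _ => ⟨h1, h2, h3, t, h4⟩⟩
      · exact ⟨0, fun h => absurd h hD⟩
    choose ξ hξ using hch
    let J : ℤ → ℕ := fun D => ⌊(M : ℝ) * Real.log (ξ D)⌋₊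
    have hJ : ∀ D ∈ DD, J D ∈ range (M * L + 1) := by
      intro D hD
      obtain ⟨h1, -, h3, -⟩ := hξ D hD
      rw [mem_range, Nat.lt_succ_iff]
      have h4 : Real.log (ξ D) ≤ L := by
        rw [Real.log_le_iff_le_exp (by positivity)]
        exact h3
      refine Nat.floor_le_of_le ?_
      push_cast
      gcongr
    have hcard : (DD.card : ℝ) = ∑ j ∈ range (M * L + 1),
        ((DD.filter (fun D => J D = j)).card : ℝ) := by
      rw [Finset.card_eq_sum_card_fiberwise (f := J) (t := range (M * L + 1)) hJ]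
      push_cast
      rfl
    have hfib : ∀ j ∈ range (M * L + 1), ((DD.filter (fun D => J D = j)).card : ℝ) ≤
        K * (L : ℝ) ^ (2 * (2 * N + 1) * A) * (2 * (4 * L)) := by
      intro j _
      rcases Finset.eq_empty_or_nonempty (DD.filter (fun D => J D = j)) with he | hne
      · rw [he, Finset.card_empty]
        push_cast
        positivity
      set g : ℕ := ⌊Real.exp ((j : ℝ) / M)⌋₊ with hg
      -- properties of the grid point
      have hprop : ∀ D ∈ DD.filter (fun D => J D = j), X ≤ g ∧ g ≤ ξ D ∧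
          Y ≤ (2 * g) ^ N ∧ (∃ t : ℕ, (g : ℝ) / (2 ^ (A + 1) * (Real.log g) ^ A) ≤
          |∑ p ∈ (range (g + 1)).filter Q, c t p * ((psi D p : ℤ) : ℝ)|) := by
        intro D hD
        obtain ⟨hD1, hD2⟩ := mem_filter.1 hD
        obtain ⟨h1, h2, h3, t, h4⟩ := hξ D hD1
        set x : ℕ := ξ D with hx
        have hxX : 2 * X < x := by
          by_contra h
          push Not at h
          have : x ^ N ≤ (2 * X) ^ N := Nat.pow_le_pow_left h N
          omega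
        have hx4 : (4 : ℝ) < x := by
          have : 4 < x := by omega
          exact_mod_cast this
        have hx0 : (0 : ℝ) < x := by linarith
        have hlogx : 0 < Real.log x := Real.log_pos (by linarith)
        have hlogL : Real.log x ≤ L := by
          rw [Real.log_le_iff_le_exp (by positivity)]
          exact h3
        have hj1 : (j : ℝ) ≤ M * Real.log x := by
          rw [← hD2]
          exact Nat.floor_le (by positivity)
        have hj2 : (M : ℝ) * Real.log x < j + 1 := by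
          rw [← hD2]
          exact Nat.lt_floor_add_one _
        set a : ℝ := Real.exp ((j : ℝ) / M) with ha
        have ha0 : 0 < a := Real.exp_pos _
        have hax : a ≤ x := by
          rw [ha, ← Real.le_log_iff_exp_le hx0, div_le_iff₀ (by linarith)]
          linarith
        have hxa : (x : ℝ) ≤ a * (1 + 2 / M) := by
          have h5 : (x : ℝ) ≤ Real.exp ((j : ℝ) / M + 1 / M) := by
            rw [← Real.log_le_iff_le_exp hx0, ← add_div, le_div_iff₀ (by linarith)]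
            linarith
          rw [Real.exp_add] at h5
          have h6 : Real.exp (1 / (M : ℝ)) ≤ 1 + 2 / M := by
            have h7 : |(1 : ℝ) / M| ≤ 1 := by
              rw [abs_of_pos (by positivity), div_le_one (by linarith)]
              linarith
            have h8 := Real.abs_exp_sub_one_le h7
            rw [abs_of_pos (a := (1 : ℝ) / M) (by positivity)] at h8
            have h9 := (abs_le.1 h8).2
            have h10 : 2 * (1 / (M : ℝ)) = 2 / M := by ring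
            linarith
          calc (x : ℝ) ≤ a * Real.exp (1 / (M : ℝ)) := h5
            _ ≤ a * (1 + 2 / M) := by gcongr
        have hga : (g : ℝ) ≤ a := Nat.floor_le ha0.le
        have hag : a < g + 1 := Nat.lt_floor_add_one a
        have hgx : g ≤ x := by
          have : (g : ℝ) ≤ x := hga.trans hax
          exact_mod_cast this
        have hM2 : 2 / (M : ℝ) ≤ 1 / 4 := by
          rw [div_le_div_iff₀ (by linarith) (by norm_num)]
          linarith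
        have hx54 : (x : ℝ) ≤ a * (5 / 4) := by
          calc (x : ℝ) ≤ a * (1 + 2 / M) := hxa
            _ ≤ a * (5 / 4) := by gcongr; linarith
        have hx2g : (x : ℝ) ≤ 2 * g := by linarith
        have hx2g' : x ≤ 2 * g := by exact_mod_cast hx2g
        refine ⟨by omega, hgx, ?_, t, ?_⟩
        · exact h2.trans (Nat.pow_le_pow_left hx2g' N)
        · have h5 := abs_sub_le Q (c t) (fun p => hc t p) D g x hgx
          have h6 : (x : ℝ) - g ≤ x / (2 * (Real.log x) ^ A) := by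
            have h7 : (x : ℝ) - g ≤ a * (2 / M) + 1 := by nlinarith
            have h8 : a * (2 / M) ≤ x / (4 * (Real.log x) ^ A) := by
              calc a * (2 / M) ≤ x * (2 / M) := by gcongr
                _ = x / (4 * (L : ℝ) ^ A) := by
                  rw [hMcast]; field_simp; norm_num
                _ ≤ x / (4 * (Real.log x) ^ A) := by gcongr
            have h9 : (1 : ℝ) ≤ x / (4 * (Real.log x) ^ A) := by
              rw [le_div_iff₀ (by positivity), one_mul]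
              exact hX2 x (by omega)
            have h10 : (x : ℝ) / (2 * (Real.log x) ^ A) =
                x / (4 * (Real.log x) ^ A) + x / (4 * (Real.log x) ^ A) := by
              field_simp; norm_num
            rw [h10]
            linarith
          have h7 : (g : ℝ) / (2 ^ (A + 1) * (Real.log g) ^ A) ≤ x / (2 * (Real.log x) ^ A) := by
            have hg2 : (2 : ℝ) ≤ g := by
              have : 2 ≤ g := by omega
              exact_mod_cast this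
            have hlogg : 0 < Real.log g := Real.log_pos (by linarith)
            have h8 : Real.log x ≤ 2 * Real.log g := by
              calc Real.log x ≤ Real.log (2 * g) := Real.log_le_log hx0 hx2g
                _ = Real.log 2 + Real.log g := Real.log_mul (by norm_num) (by positivity)
                _ ≤ Real.log g + Real.log g := by
                    have := Real.log_le_log (by norm_num) hg2
                    linarith
                _ = 2 * Real.log g := by ring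
            calc (g : ℝ) / (2 ^ (A + 1) * (Real.log g) ^ A) = g / (2 * (2 * Real.log g) ^ A) := by
                  rw [mul_pow]; congr 1; ring
              _ ≤ x / (2 * (Real.log x) ^ A) := by
                  have : (g : ℝ) ≤ x := by exact_mod_cast hgx
                  gcongr
          have h8 : (x : ℝ) / (Real.log x) ^ A =
              x / (2 * (Real.log x) ^ A) + x / (2 * (Real.log x) ^ A) := by
            field_simp; norm_num
          rw [h8] at h4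
          linarith
      obtain ⟨D0, hD0⟩ := hne
      obtain ⟨hg1, hg2, hg3, -⟩ := hprop D0 hD0
      obtain ⟨k1, -, k3, -⟩ := hξ D0 (mem_filter.1 hD0).1
      have hgL : (g : ℝ) ≤ Real.exp L := by
        have : (g : ℝ) ≤ (ξ D0 : ℝ) := by exact_mod_cast hg2
        exact this.trans k3
      have hg2' : 2 ≤ g := by omega
      have hg2'' : (2 : ℝ) ≤ g := by exact_mod_cast hg2'
      have hlogg : 0 < Real.log g := Real.log_pos (by linarith)
      have hloggL : Real.log g ≤ L := by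
        rw [Real.log_le_iff_le_exp (by positivity)]
        exact hgL
      have h1 := H g Y ((range (g + 1)).filter Q) (by omega) hg3 (by
        intro p hp
        obtain ⟨h1, h2⟩ := mem_filter.1 hp
        exact ⟨(hQ p h2).1, (hQ p h2).2, by have := mem_range.1 h1; omega⟩) c hc (by
        intro p hp T
        exact hsum p (mem_filter.1 hp).2 T) (DD.filter (fun D => J D = j)) (by
        intro D hD
        have := hDD D (mem_filter.1 hD).1
        exact ⟨this.1, this.2.1⟩) (by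
        intro D hD
        exact (hprop D hD).2.2.2)
      calc _ ≤ _ := h1
        _ ≤ K * (L : ℝ) ^ (2 * (2 * N + 1) * A) * (2 * (4 * L)) := by
            have h2 := log_two_le hL (by omega) hgL
            gcongr
    rw [hcard]
    calc ∑ j ∈ range (M * L + 1), ((DD.filter (fun D => J D = j)).card : ℝ)
        ≤ ∑ j ∈ range (M * L + 1), K * (L : ℝ) ^ (2 * (2 * N + 1) * A) * (2 * (4 * L)) :=
          Finset.sum_le_sum hfib
      _ = ((M : ℝ) * L + 1) * (K * (L : ℝ) ^ (2 * (2 * N + 1) * A) * (2 * (4 * L))) := by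
          rw [Finset.sum_const, card_range, nsmul_eq_mul]
          push_cast
          ring
      _ ≤ (9 * (L : ℝ) ^ (A + 1)) * (K * (L : ℝ) ^ (2 * (2 * N + 1) * A) * (2 * (4 * L))) := by
          have h1 : (1 : ℝ) ≤ (L : ℝ) ^ (A + 1) := one_le_pow₀ hL1
          have h2 : (M : ℝ) * L = 8 * (L : ℝ) ^ (A + 1) := by rw [hMcast]; ring
          have h3 : (M : ℝ) * L + 1 ≤ 9 * (L : ℝ) ^ (A + 1) := by rw [h2]; linarith
          gcongr
      _ = 72 * K * (L : ℝ) ^ (2 * (2 * N + 1) * A + A + 2) := by ring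
      _ ≤ ((2 * (2 * (X : ℝ)) ^ N + 1) + 72 * K) * (L : ℝ) ^ (2 * (2 * N + 1) * A + A + 2) := by
          have : (0 : ℝ) ≤ 2 * (2 * (X : ℝ)) ^ N + 1 := by positivity
          gcongr
          linarith

/-- The twist law. -/
theorem twist_gen (A K : ℕ) : ∃ (C : ℝ) (m : ℕ), 0 < C ∧ ∀ (E : WeierstrassCurve ℤ) (X0 Y L : ℕ),
    1 ≤ X0 → 1 ≤ Y → 1 ≤ L →
    ((bad E A X0 Y L).card : ℝ) ≤ C * (Y / (X0 : ℝ) ^ K + (L : ℝ) ^ m) := by
  classical
  obtain ⟨C1, hC1, H1⟩ := small_gen A K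
  obtain ⟨C2, hC2, H2⟩ := div_gen (A + 1) K
  obtain ⟨C3, m, hC3, H3⟩ := large_gen A (3 * K + 12)
  refine ⟨3 * 9 ^ K + C1 + C2 + C3, m, by positivity, ?_⟩
  intro E X0 Y L hX0 hY hL
  have hX0' : (1 : ℝ) ≤ X0 := by exact_mod_cast hX0
  have hY' : (1 : ℝ) ≤ Y := by exact_mod_cast hY
  have hL' : (1 : ℝ) ≤ L := by exact_mod_cast hL
  have hs0 : 0 < (X0 : ℝ) ^ K := by positivity
  have hT1 : 0 ≤ (Y : ℝ) / (X0 : ℝ) ^ K := by positivity
  have hT3 : 0 ≤ (L : ℝ) ^ m := by positivity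
  have hmemY : ∀ D ∈ bad E A X0 Y L, D.natAbs ≤ Y := by
    intro D hD
    have := mem_Icc.1 (mem_filter.1 hD).1
    omega
  have hsqf : ∀ D ∈ bad E A X0 Y L, Squarefree D := fun D hD => (mem_filter.1 hD).2.1
  rcases lt_or_ge X0 9 with h9 | h9
  · have h1 : (bad E A X0 Y L).card ≤ 2 * Y + 1 := by
      calc (bad E A X0 Y L).card ≤ (Finset.Icc (-(Y : ℤ)) Y).card := Finset.card_filter_le _ _
        _ = 2 * Y + 1 := by
            rw [Int.card_Icc]
            omega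
    have h2 : ((bad E A X0 Y L).card : ℝ) ≤ 2 * (Y : ℝ) + 1 := by exact_mod_cast h1
    have h3 : (X0 : ℝ) ^ K ≤ 9 ^ K := by
      have : (X0 : ℝ) ≤ 9 := by exact_mod_cast h9.le
      gcongr
    have h4 : (Y : ℝ) ≤ 9 ^ K * (Y / (X0 : ℝ) ^ K) := by
      rw [← mul_div_assoc, le_div_iff₀ hs0]
      nlinarith
    have h6 : 0 ≤ (C1 + C2 + C3) * ((Y : ℝ) / (X0 : ℝ) ^ K + (L : ℝ) ^ m) := by
      positivity
    have h8 : 0 ≤ 3 * 9 ^ K * (L : ℝ) ^ m := by positivity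
    have h7 : (3 * 9 ^ K + C1 + C2 + C3) * ((Y : ℝ) / (X0 : ℝ) ^ K + (L : ℝ) ^ m) =
      3 * (9 ^ K * (Y / (X0 : ℝ) ^ K)) + 3 * 9 ^ K * (L : ℝ) ^ m +
      (C1 + C2 + C3) * ((Y : ℝ) / (X0 : ℝ) ^ K + (L : ℝ) ^ m) := by ring
    rw [h7]
    linarith
  · -- the three sets
    set B1 := (bad E A X0 Y L).filter (fun D => ∃ x t : ℕ, X0 ≤ x ∧ 2 ≤ x ∧
      x ^ (3 * K + 12) ≤ Y ∧
      t ≤ 2 * x + 2 ∧ (x : ℝ) / (Real.log x) ^ A ≤
        |∑ p ∈ goodP E x, cf E t p * ((psi D p : ℤ) : ℝ)|) with hB1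
    set B2 := (bad E A X0 Y L).filter (fun D => ∃ x t : ℕ, 2 ≤ x ∧ Y ≤ x ^ (3 * K + 12) ∧
      (x : ℝ) ≤ Real.exp L ∧ (x : ℝ) / (Real.log x) ^ A ≤
        |∑ p ∈ goodP E x, cf E t p * ((psi D p : ℤ) : ℝ)|) with hB2
    set B3 := (bad E A X0 Y L).filter (fun D => ∃ x : ℕ, X0 ≤ x ∧ 2 ≤ x ∧
      (x : ℝ) / (Real.log x) ^ (A + 1) ≤
        (((goodP E x).filter (fun p : ℕ => (p : ℤ) ∣ D)).card : ℝ)) with hB3
    have hcover : bad E A X0 Y L ⊆ B1 ∪ (B2 ∪ B3) := by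
      intro D hD
      obtain ⟨-, -, x, t, h1, h2, h3, h4⟩ := mem_filter.1 hD
      have hx9 : (9 : ℝ) ≤ x := by exact_mod_cast h9.trans h1
      have hlog2 : 2 ≤ Real.log x := by
        rw [Real.le_log_iff_exp_le (by linarith)]
        have h5 := Real.exp_one_lt_d9
        have h6 : Real.exp 2 = Real.exp 1 * Real.exp 1 := by
          rw [← Real.exp_add]; norm_num
        rw [h6]
        have h7 := Real.exp_pos 1
        nlinarith
      have hlog0 : 0 < Real.log x := by linarith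
      have h5 := abs_sub_mean_le' E D t x
      rw [mem_union, mem_union]
      by_cases hS : (x : ℝ) / (Real.log x) ^ A ≤
          |∑ p ∈ goodP E x, cf E t p * ((psi D p : ℤ) : ℝ)|
      · rcases le_total (x ^ (3 * K + 12)) Y with h6 | h6
        · left
          rw [hB1, mem_filter]
          refine ⟨hD, x, t, h1, h2, h6, ?_, hS⟩
          by_contra h7
          push Not at h7
          have h8 := SS_eq_zero E D h7
          unfold SS at h8
          rw [h8, abs_zero] at hS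
          have : 0 < (x : ℝ) / (Real.log x) ^ A := by positivity
          linarith
        · right; left
          rw [hB2, mem_filter]
          exact ⟨hD, x, t, h2, h6, h3, hS⟩
      · right; right
        push Not at hS
        rw [hB3, mem_filter]
        refine ⟨hD, x, h1, h2, ?_⟩
        have h6 : (x : ℝ) / (Real.log x) ^ (A + 1) ≤ (x : ℝ) / (Real.log x) ^ A / 2 := by
          rw [div_div]
          rw [pow_succ]
          gcongr
        linarith
    have hc1 : (B1.card : ℝ) ≤ C1 * (Y / (X0 : ℝ) ^ K) := by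
      refine H1 (goodP E) ?_ (cf E) (cf_abs E) Y X0 hX0 hY B1 ?_
      · intro x p hp
        obtain ⟨k1, k2, -, -, k5, -⟩ := goodP_mem hp
        exact ⟨k2, k5, k1⟩
      · intro D hD
        obtain ⟨k1, k2⟩ := mem_filter.1 hD
        exact ⟨hmemY D k1, k2⟩
    have hc3 : (B3.card : ℝ) ≤ C2 * (Y / (X0 : ℝ) ^ K) := by
      refine H2 (goodP E) ?_ Y X0 hX0 B3 ?_
      · intro x p hp
        obtain ⟨k1, k2, -, -, k5, -⟩ := goodP_mem hp
        exact ⟨k2, k1⟩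
      · intro D hD
        obtain ⟨k1, k2⟩ := mem_filter.1 hD
        exact ⟨(hsqf D k1).ne_zero, hmemY D k1, k2⟩
    have hc2 : (B2.card : ℝ) ≤ C3 * (L : ℝ) ^ m := by
      have hQ : ∀ p : ℕ, (p.Prime ∧ ¬ ((p : ℤ) ∣ 6 * E.Δ)) → p ∈ goodP E p := by
        intro p hp
        unfold goodP
        rw [mem_filter, mem_range]
        exact ⟨by omega, hp⟩
      refine H3 (fun p : ℕ => p.Prime ∧ ¬ ((p : ℤ) ∣ 6 * E.Δ)) ?_ (cf E) (cf_abs E) ?_ Y L hL B2 ?_
      · intro p hp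
        obtain ⟨-, k2, -, -, k5, -⟩ := goodP_mem (hQ p hp)
        exact ⟨k2, k5⟩
      · intro p hp T
        exact cf_sum E (hQ p hp) T
      · intro D hD
        obtain ⟨k1, k2⟩ := mem_filter.1 hD
        exact ⟨hsqf D k1, hmemY D k1, k2⟩
    have hcard : ((bad E A X0 Y L).card : ℝ) ≤ B1.card + (B2.card + B3.card) := by
      have h1 := (Finset.card_le_card hcover).trans (Finset.card_union_le _ _)
      have h2 := Finset.card_union_le B2 B3
      have h3 : (bad E A X0 Y L).card ≤ B1.card + (B2.card + B3.card) := by omega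
      exact_mod_cast h3
    have e3 : 0 ≤ (C1 + C2) * (L : ℝ) ^ m := by positivity
    have e5 : 0 ≤ C3 * ((Y : ℝ) / (X0 : ℝ) ^ K) := by positivity
    have e6 : 0 ≤ 3 * 9 ^ K * ((Y : ℝ) / (X0 : ℝ) ^ K + (L : ℝ) ^ m) := by positivity
    have e7 : (3 * 9 ^ K + C1 + C2 + C3) * ((Y : ℝ) / (X0 : ℝ) ^ K + (L : ℝ) ^ m) =
      3 * 9 ^ K * ((Y : ℝ) / (X0 : ℝ) ^ K + (L : ℝ) ^ m) +
      C1 * ((Y : ℝ) / (X0 : ℝ) ^ K) + C2 * ((Y : ℝ) / (X0 : ℝ) ^ K) + C3 * (L : ℝ) ^ m +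
      ((C1 + C2) * (L : ℝ) ^ m + C3 * ((Y : ℝ) / (X0 : ℝ) ^ K)) := by ring
    rw [e7]
    linarith

end Pool.Agent.Helper16.TL
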