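import Mathlib
import Pool.Agent.Helper70.TW.Jac

set_option autoImplicit false

/-!
# Sixth moment of short character sums over all discriminants

For odd primes `p ≤ x` and coefficients of size at most one, the sixth power of
`∑ c p * (D/p)` summed over `|D| ≤ Y`.
-/

namespace Pool.Agent.Helper16.TL

open Finset Pool.Agent.Helper70.TW

/-- Existence of `a` with `(a/n) = -1` for odd non-square `n`. -/
theorem exists_neg_left (n : ℕ) (hodd : Odd n) (hn : ¬ IsSquare n) :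
    ∃ a : ℤ, jacobiSym a n = -1 := by
  have hn0 : n ≠ 0 := by rintro rfl; exact hn ⟨0, rfl⟩
  obtain ⟨c, m, hcm, hc⟩ := Nat.sq_mul_squarefree n
  have hc1 : c ≠ 1 := by
    rintro rfl
    exact hn ⟨m, by rw [← hcm]; ring⟩
  obtain ⟨q, hq, c', rfl⟩ := Nat.exists_prime_and_dvd hc1
  have hm0 : m ≠ 0 := by
    rintro rfl
    apply hn0; rw [← hcm]; ring
  obtain ⟨e, m', hm', hmm⟩ := Nat.exists_eq_pow_mul_and_not_dvd hm0 q hq.ne_one
  have hqc : ¬ q ∣ c' := by
    intro h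
    obtain ⟨d, rfl⟩ := h
    have := hc q ⟨d, by ring⟩
    exact hq.one_lt.ne' (Nat.isUnit_iff.1 this)
  set b : ℕ := c' * m' ^ 2 with hb
  have hab : n = q ^ (2 * e + 1) * b := by
    rw [← hcm, hmm, hb]; ring
  have hqb : Nat.Coprime q b := by
    rw [Nat.Prime.coprime_iff_not_dvd hq, hb]
    intro h
    rcases hq.dvd_mul.1 h with h | h
    · exact hqc h
    · exact hm' (hq.dvd_of_dvd_pow h)
  have hb0 : b ≠ 0 := by
    intro h
    rw [h, mul_zero] at hab; exact hn0 hab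
  have hqodd : Odd q := by
    rw [hab] at hodd
    have h1 := (Nat.odd_mul.1 hodd).1
    rw [pow_succ] at h1
    exact (Nat.odd_mul.1 h1).2
  have hF : Fact q.Prime := ⟨hq⟩
  have hq2 : ringChar (ZMod q) ≠ 2 := by
    rw [ZMod.ringChar_zmod_n]
    rintro rfl
    exact absurd hqodd (by decide)
  obtain ⟨r, hr⟩ := FiniteField.exists_nonsquare (F := ZMod q) hq2
  obtain ⟨a, ha1, ha2⟩ := Nat.chineseRemainder hqb r.val 1
  refine ⟨(a : ℤ), ?_⟩
  have hq0 : q ^ (2 * e + 1) ≠ 0 := pow_ne_zero _ hq.ne_zero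
  rw [hab, jacobiSym.mul_right' _ hq0 hb0, jacobiSym.pow_right]
  have h1 : jacobiSym (a : ℤ) q = -1 := by
    rw [← jacobiSym.legendreSym.to_jacobiSym, legendreSym.eq_neg_one_iff]
    have : ((a : ℤ) : ZMod q) = r := by
      have h := (ZMod.natCast_eq_natCast_iff _ _ _).2 ha1
      rw [ZMod.natCast_val, ZMod.cast_id] at h
      exact_mod_cast h
    rw [this]
    exact hr
  have h2 : jacobiSym (a : ℤ) b = 1 := by
    have h3 : jacobiSym (a : ℤ) b = jacobiSym 1 b := by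
      refine jacobiSym.mod_left' ?_
      have := ha2
      rw [Nat.ModEq] at this
      exact_mod_cast this
    rw [h3, jacobiSym.one_left]
  rw [h1, h2, mul_one]
  exact Odd.neg_one_pow ⟨e, rfl⟩

/-- Sums of a periodic function of mean zero. -/
theorem abs_sum_range_le (g : ℕ → ℤ) (n : ℕ) (hn : 0 < n) (hper : ∀ k, g (n + k) = g k)
    (hb : ∀ k, |g k| ≤ 1) (h0 : ∑ k ∈ range n, g k = 0) (N : ℕ) :
    |∑ k ∈ range N, g k| ≤ n := by
  induction N using Nat.strong_induction_on with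
  | _ N ih =>
    rcases lt_or_ge N n with h | h
    · calc |∑ k ∈ range N, g k| ≤ ∑ k ∈ range N, |g k| := Finset.abs_sum_le_sum_abs _ _
        _ ≤ ∑ k ∈ range N, 1 := Finset.sum_le_sum fun k _ => hb k
        _ = N := by simp
        _ ≤ n := by exact_mod_cast h.le
    · obtain ⟨M, rfl⟩ := Nat.exists_eq_add_of_le h
      rw [Finset.sum_range_add, h0, zero_add]
      simp only [hper]
      exact ih M (by omega)

/-- The sum of `(D/n)` over a full period, shifted. -/
theorem sum_period (n : ℕ) (hodd : Odd n) (hn : ¬ IsSquare n) (s : ℤ) :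
    ∑ k ∈ range n, jacobiSym ((k : ℤ) + s) n = 0 := by
  have hn0 : n ≠ 0 := by rintro rfl; exact hn ⟨0, rfl⟩
  have : NeZero n := ⟨hn0⟩
  obtain ⟨a, ha⟩ := exists_neg_left n hodd hn
  let Ψ : ZMod n → ℤ := fun u => jacobiSym (u.val : ℤ) n
  have hΨ : ∀ z : ℤ, Ψ (z : ZMod n) = jacobiSym z n := by
    intro z
    show jacobiSym (((z : ZMod n).val : ℤ)) n = jacobiSym z n
    rw [ZMod.val_intCast, ← jacobiSym.mod_left]
  have hcop : IsUnit ((a : ℤ) : ZMod n) := by
    rw [ZMod.coe_int_isUnit_iff_isCoprime]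
    by_contra hne
    have hz : a.gcd n ≠ 1 := by
      intro h
      apply hne
      rw [isCoprime_comm]
      exact Int.isCoprime_iff_gcd_eq_one.2 h
    have := jacobiSym.eq_zero_iff.2 ⟨hn0, hz⟩
    rw [ha] at this
    exact absurd this (by decide)
  obtain ⟨u0, hu0⟩ := hcop
  have hneg : ∀ u : ZMod n, Ψ ((u0 : ZMod n) * u) = - Ψ u := by
    intro u
    have h1 : (u0 : ZMod n) * u = ((a * (u.val : ℤ) : ℤ) : ZMod n) := by
      push_cast
      rw [hu0, ZMod.natCast_zmod_val]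
    rw [h1, hΨ, jacobiSym.mul_left, ha]
    show _ = - jacobiSym (u.val : ℤ) n
    ring
  have hS : ∑ u : ZMod n, Ψ ((u0 : ZMod n) * u) = ∑ u : ZMod n, Ψ u :=
    Equiv.sum_comp (Units.mulLeft u0) Ψ
  have hT : ∑ u : ZMod n, Ψ (u + (s : ZMod n)) = ∑ u : ZMod n, Ψ u :=
    Equiv.sum_comp (Equiv.addRight (s : ZMod n)) Ψ
  have hsum : ∑ k ∈ range n, jacobiSym ((k : ℤ) + s) n = ∑ u : ZMod n, Ψ (u + (s : ZMod n)) := by
    refine Finset.sum_bij (fun (k : ℕ) _ => (k : ZMod n)) (fun k _ => mem_univ _) ?_ ?_ ?_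
    · intro k hk m hm h
      have h2 := (ZMod.natCast_eq_natCast_iff' k m n).1 h
      rwa [Nat.mod_eq_of_lt (mem_range.1 hk), Nat.mod_eq_of_lt (mem_range.1 hm)] at h2
    · intro u _
      exact ⟨u.val, mem_range.2 (ZMod.val_lt u), ZMod.natCast_zmod_val u⟩
    · intro k _
      rw [← hΨ]
      push_cast
      rfl
  rw [hsum, hT]
  simp only [hneg] at hS
  rw [Finset.sum_neg_distrib] at hS
  omega

theorem sum_Icc_shift (Y : ℕ) (f : ℤ → ℤ) :
    ∑ D ∈ Finset.Icc (-(Y : ℤ)) Y, f D = ∑ k ∈ range (2 * Y + 1), f ((k : ℤ) + (-(Y : ℤ))) := by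
  symm
  refine Finset.sum_bij (fun (k : ℕ) _ => (k : ℤ) + (-(Y : ℤ))) ?_ ?_ ?_ ?_
  · intro k hk
    have := mem_range.1 hk
    rw [mem_Icc]
    omega
  · intro k _ m _ h
    have : (k : ℤ) + (-(Y : ℤ)) = (m : ℤ) + (-(Y : ℤ)) := h
    omega
  · intro D hD
    have := mem_Icc.1 hD
    refine ⟨(D + Y).toNat, ?_, ?_⟩
    · rw [mem_range]; omega
    · show (((D + Y).toNat : ℕ) : ℤ) + (-(Y : ℤ)) = D
      omega
  · intro k _
    rfl

/-- The sum of `(D/n)` over `|D| ≤ Y` for odd non-square `n`. -/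
theorem abs_sum_psi_le (Y n : ℕ) (hodd : Odd n) (hn : ¬ IsSquare n) :
    |∑ D ∈ Finset.Icc (-(Y : ℤ)) Y, psi D n| ≤ n := by
  have hn0 : 0 < n := by
    rcases Nat.eq_zero_or_pos n with h | h
    · subst h; exact absurd ⟨0, rfl⟩ hn
    · exact h
  have h1 : ∀ D : ℤ, psi D n = jacobiSym D n := fun D => psi_odd hodd
  simp only [h1]
  rw [sum_Icc_shift]
  refine abs_sum_range_le _ n hn0 ?_ ?_ ?_ _
  · intro k
    refine jacobiSym.mod_left' ?_
    push_cast
    rw [add_assoc, Int.add_emod_left]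
  · intro k
    rw [← h1]
    exact psi_abs_le _ _
  · exact sum_period n hodd hn _

open ArithmeticFunction in
/-- The number of six-tuples of primes whose product is a square. -/
theorem card_square_tuples (x : ℕ) (P : Finset ℕ) (hP : ∀ p ∈ P, p.Prime ∧ Odd p ∧ p ≤ x) :
    ((Fintype.piFinset fun _ : Fin 6 => P).filter
      (fun g => IsSquare (∏ i, g i))).card ≤ 729 * x ^ 3 := by
  classical
  have key := Finset.card_le_mul_card_image_of_maps_to
    (s := (Fintype.piFinset fun _ : Fin 6 => P).filter (fun g => IsSquare (∏ i, g i)))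
    (t := Finset.Icc 1 (x ^ 3)) (f := fun g => Nat.sqrt (∏ i, g i)) ?_ 729 ?_
  · rw [Nat.card_Icc] at key
    simpa using key
  · intro g hg
    obtain ⟨hg1, hg2⟩ := mem_filter.1 hg
    have hg3 : ∀ i, g i ∈ P := fun i => Fintype.mem_piFinset.1 hg1 i
    obtain ⟨m, hm⟩ := hg2
    have hs : Nat.sqrt (∏ i, g i) = m := by rw [hm, Nat.sqrt_eq]
    show Nat.sqrt (∏ i, g i) ∈ _
    rw [hs, mem_Icc]
    have hpos : 0 < ∏ i, g i := Finset.prod_pos fun i _ => (hP _ (hg3 i)).1.pos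
    constructor
    · rcases Nat.eq_zero_or_pos m with h | h
      · subst h; omega
      · exact h
    · have hle : ∏ i, g i ≤ x ^ 6 := by
        calc ∏ i, g i ≤ ∏ _i : Fin 6, x := Finset.prod_le_prod' fun i _ => (hP _ (hg3 i)).2.2
          _ = x ^ 6 := by simp
      rw [hm] at hle
      have h2 : m * m ≤ x ^ 3 * x ^ 3 := by
        calc m * m ≤ x ^ 6 := hle
          _ = x ^ 3 * x ^ 3 := by ring
      exact Nat.mul_self_le_mul_self_iff.1 h2
  · intro m hm
    by_cases hem : ((((Fintype.piFinset fun _ : Fin 6 => P).filter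
      (fun g => IsSquare (∏ i, g i)))).filter (fun g => Nat.sqrt (∏ i, g i) = m)).Nonempty
    · obtain ⟨g0, hg0⟩ := hem
      obtain ⟨hg1, hg2⟩ := mem_filter.1 hg0
      obtain ⟨hg3, hg4⟩ := mem_filter.1 hg1
      have hg5 : ∀ i, g0 i ∈ P := fun i => Fintype.mem_piFinset.1 hg3 i
      have hm1 : 1 ≤ m := (mem_Icc.1 hm).1
      have hmm : ∏ i, g0 i = m * m := by
        obtain ⟨r, hr⟩ := hg4
        have : Nat.sqrt (∏ i, g0 i) = r := by rw [hr, Nat.sqrt_eq]
        rw [hg2] at this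
        rw [hr, this]
      have hΩ : cardFactors m = 3 := by
        have h1 : cardFactors (∏ i, g0 i) = 6 := by
          have hne : ∀ i, g0 i ≠ 0 := fun i => (hP _ (hg5 i)).1.ne_zero
          have hpr : ∀ i, cardFactors (g0 i) = 1 := fun i =>
            cardFactors_apply_prime (hP _ (hg5 i)).1
          rw [Fin.prod_univ_six]
          have n1 := mul_ne_zero (hne 0) (hne 1)
          have n2 := mul_ne_zero n1 (hne 2)
          have n3 := mul_ne_zero n2 (hne 3)
          have n4 := mul_ne_zero n3 (hne 4)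
          rw [cardFactors_mul n4 (hne 5), cardFactors_mul n3 (hne 4), cardFactors_mul n2 (hne 3),
            cardFactors_mul n1 (hne 2), cardFactors_mul (hne 0) (hne 1)]
          simp only [hpr]
        rw [hmm, cardFactors_mul (by omega) (by omega)] at h1
        omega
      have hcard : m.primeFactors.card ≤ 3 := by
        calc m.primeFactors.card = m.primeFactorsList.toFinset.card := rfl
          _ ≤ m.primeFactorsList.length := List.toFinset_card_le _
          _ = 3 := by rw [← hΩ, cardFactors_apply]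
      calc _ ≤ (Fintype.piFinset fun _ : Fin 6 => m.primeFactors).card := by
            refine Finset.card_le_card ?_
            intro g hg
            obtain ⟨hg1', hg2'⟩ := mem_filter.1 hg
            obtain ⟨hg3', hg4'⟩ := mem_filter.1 hg1'
            have hg5' : ∀ i, g i ∈ P := fun i => Fintype.mem_piFinset.1 hg3' i
            have hmm' : ∏ i, g i = m * m := by
              obtain ⟨r, hr⟩ := hg4'
              have : Nat.sqrt (∏ i, g i) = r := by rw [hr, Nat.sqrt_eq]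
              rw [hg2'] at this
              rw [hr, this]
            rw [Fintype.mem_piFinset]
            intro i
            rw [Nat.mem_primeFactors]
            refine ⟨(hP _ (hg5' i)).1, ?_, by omega⟩
            have hd : g i ∣ m * m := by
              rw [← hmm']
              exact Finset.dvd_prod_of_mem _ (mem_univ i)
            rcases (hP _ (hg5' i)).1.dvd_mul.1 hd with h | h <;> exact h
        _ = m.primeFactors.card ^ 6 := by simp
        _ ≤ 3 ^ 6 := Nat.pow_le_pow_left hcard 6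
        _ = 729 := by norm_num
    · rw [Finset.not_nonempty_iff_eq_empty] at hem
      rw [hem]
      simp

theorem psi_prod (D : ℤ) (g : Fin 6 → ℕ) : psi D (∏ i, g i) = ∏ i, psi D (g i) := by
  rw [Fin.prod_univ_six, Fin.prod_univ_six]
  simp only [psi_mul_right]

/-- The sixth moment. -/
theorem sixth (x Y : ℕ) (P : Finset ℕ) (hP : ∀ p ∈ P, p.Prime ∧ Odd p ∧ p ≤ x) (c : ℕ → ℝ)
    (hc : ∀ p ∈ P, |c p| ≤ 1) :
    ∑ D ∈ Finset.Icc (-(Y : ℤ)) Y, (∑ p ∈ P, c p * ((psi D p : ℤ) : ℝ)) ^ 6 ≤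
      (2 * Y + 1) * (729 * (x : ℝ) ^ 3) + (x : ℝ) ^ 12 := by
  classical
  set T := Fintype.piFinset fun _ : Fin 6 => P with hT
  have hexp : ∀ D : ℤ, (∑ p ∈ P, c p * ((psi D p : ℤ) : ℝ)) ^ 6 =
      ∑ g ∈ T, (∏ i, c (g i)) * ((psi D (∏ i, g i) : ℤ) : ℝ) := by
    intro D
    rw [Finset.sum_pow']
    refine Finset.sum_congr rfl fun g _ => ?_
    rw [Finset.prod_mul_distrib, psi_prod]
    push_cast
    rfl
  simp only [hexp]
  rw [Finset.sum_comm]
  have hPx : P.card ≤ x := by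
    calc P.card ≤ (Finset.Icc 1 x).card := Finset.card_le_card (fun p hp =>
          mem_Icc.2 ⟨(hP p hp).1.pos, (hP p hp).2.2⟩)
      _ = x := by simp
  have hTc : T.card ≤ x ^ 6 := by
    rw [hT, Fintype.card_piFinset]
    simpa using Nat.pow_le_pow_left hPx 6
  have hterm : ∀ g ∈ T, ∑ D ∈ Finset.Icc (-(Y : ℤ)) Y,
      (∏ i, c (g i)) * ((psi D (∏ i, g i) : ℤ) : ℝ) ≤
      (if IsSquare (∏ i, g i) then (2 * (Y : ℝ) + 1) else 0) + (x : ℝ) ^ 6 := by
    intro g hg
    have hg' : ∀ i, g i ∈ P := fun i => Fintype.mem_piFinset.1 hg i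
    rw [← Finset.mul_sum]
    have hcc : |∏ i, c (g i)| ≤ 1 := by
      rw [Finset.abs_prod]
      exact Finset.prod_le_one (fun i _ => abs_nonneg _) (fun i _ => hc _ (hg' i))
    have hbound : ∀ B : ℝ, 0 ≤ B → |∑ D ∈ Finset.Icc (-(Y : ℤ)) Y,
        ((psi D (∏ i, g i) : ℤ) : ℝ)| ≤ B → (∏ i, c (g i)) * ∑ D ∈ Finset.Icc (-(Y : ℤ)) Y,
        ((psi D (∏ i, g i) : ℤ) : ℝ) ≤ B := by
      intro B hB hB2
      calc _ ≤ |(∏ i, c (g i)) * ∑ D ∈ Finset.Icc (-(Y : ℤ)) Y,
            ((psi D (∏ i, g i) : ℤ) : ℝ)| := le_abs_self _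
        _ = |∏ i, c (g i)| * |∑ D ∈ Finset.Icc (-(Y : ℤ)) Y,
            ((psi D (∏ i, g i) : ℤ) : ℝ)| := abs_mul _ _
        _ ≤ 1 * B := mul_le_mul hcc hB2 (abs_nonneg _) zero_le_one
        _ = B := one_mul B
    have hodd : Odd (∏ i, g i) := by
      rw [Fin.prod_univ_six]
      exact (((((hP _ (hg' 0)).2.1.mul (hP _ (hg' 1)).2.1).mul (hP _ (hg' 2)).2.1).mul
        (hP _ (hg' 3)).2.1).mul (hP _ (hg' 4)).2.1).mul (hP _ (hg' 5)).2.1
    by_cases hsq : IsSquare (∏ i, g i)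
    · rw [if_pos hsq]
      refine hbound _ (by positivity) ?_
      calc |∑ D ∈ Finset.Icc (-(Y : ℤ)) Y, ((psi D (∏ i, g i) : ℤ) : ℝ)|
          ≤ ∑ D ∈ Finset.Icc (-(Y : ℤ)) Y, |((psi D (∏ i, g i) : ℤ) : ℝ)| :=
            Finset.abs_sum_le_sum_abs _ _
        _ ≤ ∑ D ∈ Finset.Icc (-(Y : ℤ)) Y, (1 : ℝ) := by
            refine Finset.sum_le_sum fun D _ => ?_
            exact_mod_cast psi_abs_le D (∏ i, g i)
        _ = 2 * (Y : ℝ) + 1 := by
            rw [Finset.sum_const, nsmul_eq_mul, mul_one, Int.card_Icc]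
            have : ((Y : ℤ) + 1 - -(Y : ℤ)).toNat = 2 * Y + 1 := by omega
            rw [this]; push_cast; ring
        _ ≤ 2 * (Y : ℝ) + 1 + (x : ℝ) ^ 6 := by
            have : (0 : ℝ) ≤ (x : ℝ) ^ 6 := by positivity
            linarith
    · rw [if_neg hsq, zero_add]
      refine hbound _ (by positivity) ?_
      have h1 := abs_sum_psi_le Y (∏ i, g i) hodd hsq
      have h2 : ∏ i, g i ≤ x ^ 6 := by
        calc ∏ i, g i ≤ ∏ _i : Fin 6, x := Finset.prod_le_prod' fun i _ => (hP _ (hg' i)).2.2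
          _ = x ^ 6 := by simp
      have h3 : |∑ D ∈ Finset.Icc (-(Y : ℤ)) Y, psi D (∏ i, g i)| ≤ ((x ^ 6 : ℕ) : ℤ) :=
        h1.trans (by exact_mod_cast h2)
      have h4 : ((|∑ D ∈ Finset.Icc (-(Y : ℤ)) Y, psi D (∏ i, g i)| : ℤ) : ℝ) ≤
          (((x ^ 6 : ℕ) : ℤ) : ℝ) := by exact_mod_cast h3
      push_cast at h4
      exact h4
  calc ∑ g ∈ T, ∑ D ∈ Finset.Icc (-(Y : ℤ)) Y, (∏ i, c (g i)) * ((psi D (∏ i, g i) : ℤ) : ℝ)
      ≤ ∑ g ∈ T, ((if IsSquare (∏ i, g i) then (2 * (Y : ℝ) + 1) else 0) + (x : ℝ) ^ 6) :=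
        Finset.sum_le_sum hterm
    _ = ((T.filter (fun g => IsSquare (∏ i, g i))).card : ℝ) * (2 * (Y : ℝ) + 1) +
        (T.card : ℝ) * (x : ℝ) ^ 6 := by
        rw [Finset.sum_add_distrib, ← Finset.sum_filter, Finset.sum_const, Finset.sum_const,
          nsmul_eq_mul, nsmul_eq_mul]
    _ ≤ (729 * (x : ℝ) ^ 3) * (2 * (Y : ℝ) + 1) + (x : ℝ) ^ 6 * (x : ℝ) ^ 6 := by
        have h1 : ((T.filter (fun g => IsSquare (∏ i, g i))).card : ℝ) ≤ 729 * (x : ℝ) ^ 3 := by
          exact_mod_cast card_square_tuples x P hP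
        have h2 : (T.card : ℝ) ≤ (x : ℝ) ^ 6 := by exact_mod_cast hTc
        gcongr
    _ = (2 * Y + 1) * (729 * (x : ℝ) ^ 3) + (x : ℝ) ^ 12 := by ring

end Pool.Agent.Helper16.TL
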