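import Mathlib

set_option autoImplicit false

/-!
# Many squarefree integers
-/

namespace Pool.Agent.Helper16.TL

open Finset

theorem sum_inv_sq (M : ℕ) (hM : 2 ≤ M) :
    ∑ k ∈ Finset.Icc 2 M, 1 / ((k : ℝ) * k) ≤ 3 / 4 - 1 / M := by
  induction M, hM using Nat.le_induction with
  | base => norm_num
  | succ M hM ih =>
    rw [Finset.sum_Icc_succ_top (by omega)]
    have h0 : (2 : ℝ) ≤ M := by exact_mod_cast hM
    have h1 : 1 / (((M + 1 : ℕ) : ℝ) * ((M + 1 : ℕ) : ℝ)) ≤ 1 / (M : ℝ) - 1 / ((M + 1 : ℕ) : ℝ) := by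
      push_cast
      rw [div_sub_div _ _ (by positivity) (by positivity), div_le_div_iff₀ (by positivity) (by positivity)]
      nlinarith
    linarith

/-- At least half of `Y` integers of absolute value at most `Y` are squarefree. -/
theorem sqf_count [DecidablePred (Squarefree : ℤ → Prop)] (Y : ℕ) :
    (Y : ℝ) / 2 ≤ ((((Finset.Icc (-(Y : ℤ)) Y).filter Squarefree).card : ℕ) : ℝ) := by
  classical
  have hsub : (Ioc 0 Y).filter (fun n => ¬ Squarefree n) ⊆
      (Finset.Icc 2 Y).biUnion (fun k => (Ioc 0 Y).filter (fun n => k * k ∣ n)) := by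
    intro n hn
    obtain ⟨h1, h2⟩ := mem_filter.1 hn
    have h1' := mem_Ioc.1 h1
    unfold Squarefree at h2
    push Not at h2
    obtain ⟨k, hk1, hk2⟩ := h2
    rw [mem_biUnion]
    have hk0 : k ≠ 0 := by
      rintro rfl
      rw [zero_mul] at hk1
      have := Nat.eq_zero_of_zero_dvd hk1
      omega
    have hk2' : k ≠ 1 := by
      rintro rfl
      exact hk2 isUnit_one
    have hle : k * k ≤ n := Nat.le_of_dvd (by omega) hk1
    have hle2 : k ≤ k * k := Nat.le_mul_self k
    exact ⟨k, mem_Icc.2 ⟨by omega, by omega⟩, mem_filter.2 ⟨h1, hk1⟩⟩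
  have hN : (((Ioc 0 Y).filter (fun n => ¬ Squarefree n)).card : ℝ) ≤ 3 / 4 * Y := by
    have h1 : ((Ioc 0 Y).filter (fun n => ¬ Squarefree n)).card ≤
        ∑ k ∈ Finset.Icc 2 Y, Y / (k * k) := by
      refine (card_le_card hsub).trans (card_biUnion_le.trans ?_)
      refine Finset.sum_le_sum fun k _ => ?_
      rw [Nat.Ioc_filter_dvd_card_eq_div]
    have h2 : (((Ioc 0 Y).filter (fun n => ¬ Squarefree n)).card : ℝ) ≤
        ∑ k ∈ Finset.Icc 2 Y, (Y : ℝ) * (1 / ((k : ℝ) * k)) := by
      calc _ ≤ ((∑ k ∈ Finset.Icc 2 Y, Y / (k * k) : ℕ) : ℝ) := by exact_mod_cast h1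
        _ = ∑ k ∈ Finset.Icc 2 Y, ((Y / (k * k) : ℕ) : ℝ) := by push_cast; rfl
        _ ≤ ∑ k ∈ Finset.Icc 2 Y, (Y : ℝ) * (1 / ((k : ℝ) * k)) := by
            refine Finset.sum_le_sum fun k _ => ?_
            have := Nat.cast_div_le (m := Y) (n := k * k) (α := ℝ)
            push_cast at this ⊢
            rw [mul_one_div]
            exact this
    refine h2.trans ?_
    rw [← Finset.mul_sum]
    rcases lt_or_ge Y 2 with h | h
    · rw [Finset.Icc_eq_empty (by omega)]
      simp
    · have h3 := sum_inv_sq Y h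
      have h4 : (0 : ℝ) < 1 / Y := by
        have : (2 : ℝ) ≤ Y := by exact_mod_cast h
        positivity
      have h5 : (0 : ℝ) ≤ Y := Nat.cast_nonneg _
      nlinarith
  have hS : (Y : ℝ) / 4 ≤ (((Ioc 0 Y).filter (fun n => Squarefree n)).card : ℝ) := by
    have h1 := Finset.card_filter_add_card_filter_not (s := Ioc 0 Y) (fun n => Squarefree n)
    rw [Nat.card_Ioc, Nat.sub_zero] at h1
    have h2 : (((Ioc 0 Y).filter (fun n => Squarefree n)).card : ℝ) +
        (((Ioc 0 Y).filter (fun n => ¬ Squarefree n)).card : ℝ) = Y := by exact_mod_cast h1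
    linarith
  have h2S : 2 * ((Ioc 0 Y).filter (fun n => Squarefree n)).card ≤
      ((Finset.Icc (-(Y : ℤ)) Y).filter Squarefree).card := by
    have h1 : ((Ioc 0 Y).filter (fun n => Squarefree n)).image (fun n : ℕ => (n : ℤ)) ∪
        ((Ioc 0 Y).filter (fun n => Squarefree n)).image (fun n : ℕ => -(n : ℤ)) ⊆
        (Finset.Icc (-(Y : ℤ)) Y).filter Squarefree := by
      intro D hD
      rw [mem_union, mem_image, mem_image] at hD
      rw [mem_filter, mem_Icc]
      rcases hD with ⟨n, hn, rfl⟩ | ⟨n, hn, rfl⟩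
      · obtain ⟨h1, h2⟩ := mem_filter.1 hn
        have := mem_Ioc.1 h1
        refine ⟨by omega, ?_⟩
        rw [← Int.squarefree_natAbs]
        simpa using h2
      · obtain ⟨h1, h2⟩ := mem_filter.1 hn
        have := mem_Ioc.1 h1
        refine ⟨by omega, ?_⟩
        rw [← Int.squarefree_natAbs]
        simpa using h2
    have h2 := card_le_card h1
    rw [card_union_of_disjoint, card_image_of_injective, card_image_of_injective] at h2
    · omega
    · intro a b h
      simp only at h
      omega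
    · intro a b h
      simp only at h
      omega
    · rw [Finset.disjoint_left]
      intro D hD hD'
      rw [mem_image] at hD hD'
      obtain ⟨n, hn, h3⟩ := hD
      obtain ⟨n', hn', h4⟩ := hD'
      have h5 := mem_Ioc.1 (mem_filter.1 hn).1
      have h6 := mem_Ioc.1 (mem_filter.1 hn').1
      omega
  have h3 : 2 * (((Ioc 0 Y).filter (fun n => Squarefree n)).card : ℝ) ≤
      (((Finset.Icc (-(Y : ℤ)) Y).filter Squarefree).card : ℝ) := by exact_mod_cast h2S
  have h4 : (Y : ℝ) / 2 ≤ (((Finset.Icc (-(Y : ℤ)) Y).filter Squarefree).card : ℝ) := by linarith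
  exact h4

end Pool.Agent.Helper16.TL
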